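import Pool.Agent.H19.NF.QF

set_option autoImplicit false

namespace Pool.Agent.H19.NF

open MvPolynomial IsLocalRing

/-- In a polynomial ring over a finite field with `q` elements, `f ^ q` is `expand q f`. -/
theorem expand_card_eq {σ κ : Type*} [Field κ] [Fintype κ] (f : MvPolynomial σ κ) :
    expand (Fintype.card κ) f = f ^ Fintype.card κ := by
  obtain ⟨p, hchar⟩ := CharP.exists κ
  have hp : Fact p.Prime := ⟨CharP.char_is_prime κ p⟩
  obtain ⟨n, -, hn⟩ := FiniteField.card κ p
  have h1 : ∀ f : MvPolynomial σ κ, f ^ Fintype.card κ = iterateFrobenius (MvPolynomial σ κ) p n f := by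
    intro f
    rw [iterateFrobenius_def, hn]
  rw [h1]
  have h2 : (expand (R := κ) (σ := σ) (Fintype.card κ) : MvPolynomial σ κ →+* MvPolynomial σ κ) =
      iterateFrobenius (MvPolynomial σ κ) p n := by
    apply MvPolynomial.ringHom_ext
    · intro a
      rw [← h1, ← C_pow, FiniteField.pow_card]
      simp
    · intro i
      rw [← h1]
      simp
  exact RingHom.congr_fun h2 f

/-- In a polynomial ring over a local ring with principal maximal ideal `(ϖ)` and finite residue
field, `ϖ` does not lie in the second symbolic power of a prime ideal. (Proof by the lift of the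
Frobenius which is the identity on the coefficients.) -/
theorem mem_of_pi_mul_mem_sq {σ A : Type*} [CommRing A] [IsDomain A] [IsLocalRing A]
    [Finite (ResidueField A)] (ϖ : A) (hϖ : maximalIdeal A = Ideal.span {ϖ}) (hϖ0 : ϖ ≠ 0)
    (P : Ideal (MvPolynomial σ A)) [hP : P.IsPrime] (hpP : (C ϖ : MvPolynomial σ A) ∈ P)
    (s : MvPolynomial σ A) (hs : (C ϖ : MvPolynomial σ A) * s ∈ P ^ 2) : s ∈ P := by
  have : Fintype (ResidueField A) := Fintype.ofFinite _
  set q := Fintype.card (ResidueField A) with hq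
  have hq1 : 1 < q := Fintype.one_lt_card
  obtain ⟨p, hchar⟩ := CharP.exists (ResidueField A)
  have hp : Fact p.Prime := ⟨CharP.char_is_prime (ResidueField A) p⟩
  obtain ⟨n, hn0, hn⟩ := FiniteField.card (ResidueField A) p
  let φ := expand (R := A) (σ := σ) q
  have hdvd : ∀ f : MvPolynomial σ A, (C ϖ : MvPolynomial σ A) ∣ f ↔
      map (residue A) f = 0 := by
    intro f
    rw [C_dvd_iff_map_hom_eq_zero (residue A) ϖ (fun r' => by
      rw [residue_eq_zero_iff, hϖ, Ideal.mem_span_singleton])]
  have hφ : ∀ f : MvPolynomial σ A, ∃ d, φ f = f ^ q + (C ϖ : MvPolynomial σ A) * d := by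
    intro f
    have h1 : C ϖ ∣ φ f - f ^ q := by
      rw [hdvd, map_sub, map_pow, map_expand, expand_card_eq, sub_self]
    obtain ⟨d, hd⟩ := h1
    exact ⟨d, by rw [← hd]; ring⟩
  have hcast : φ (C ϖ) = C ϖ := by simp [φ]
  have hϖC : (C ϖ : MvPolynomial σ A) ≠ 0 := by rwa [Ne, C_eq_zero]
  -- the property is stable
  have key : ∀ x ∈ P ^ 2, x ∈ P ∧ ∃ d ∈ P, φ x = x ^ q + (C ϖ : MvPolynomial σ A) * d := by
    intro x hx
    rw [pow_two] at hx
    induction hx using Submodule.mul_induction_on' with
    | mem_mul_mem a ha b hb =>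
      obtain ⟨da, hda⟩ := hφ a
      obtain ⟨db, hdb⟩ := hφ b
      have hq0 : 0 < q := by omega
      refine ⟨P.mul_mem_right _ ha, a ^ q * db + b ^ q * da + (C ϖ : MvPolynomial σ A) * (da * db),
        ?_, ?_⟩
      · refine P.add_mem (P.add_mem (P.mul_mem_right _ (P.pow_mem_of_mem ha q hq0))
          (P.mul_mem_right _ (P.pow_mem_of_mem hb q hq0))) (P.mul_mem_right _ hpP)
      · rw [map_mul, hda, hdb]; ring
    | add a _ b _ ha hb =>
      obtain ⟨haP, da, hdaP, hda⟩ := ha
      obtain ⟨hbP, db, hdbP, hdb⟩ := hb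
      -- the binomial coefficients are divisible by `ϖ`
      have hbin : ∀ j ∈ Finset.Ioo 0 q, ∃ c : MvPolynomial σ A,
          a ^ j * b ^ (q - j) * (q.choose j : MvPolynomial σ A) =
            (C ϖ : MvPolynomial σ A) * (a * (a ^ (j - 1) * b ^ (q - j) * c)) := by
        intro j hj
        rw [Finset.mem_Ioo] at hj
        have hqn : q = p ^ (n : ℕ) := hn
        have h1 : p ∣ q.choose j := by
          rw [hqn]
          exact hp.out.dvd_choose_pow (by omega) (by rw [← hqn]; omega)
        have h2 : (C ϖ : MvPolynomial σ A) ∣ (q.choose j : MvPolynomial σ A) := by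
          rw [hdvd, map_natCast]
          obtain ⟨c, hc⟩ := h1
          rw [hc]
          have h3 : ((p : ℕ) : MvPolynomial σ (ResidueField A)) = 0 := by
            have : ((p : ℕ) : MvPolynomial σ (ResidueField A)) = C ((p : ℕ) : ResidueField A) := by
              simp
            rw [this, CharP.cast_eq_zero, C_0]
          push_cast
          rw [h3, zero_mul]
        obtain ⟨c, hc⟩ := h2
        refine ⟨c, ?_⟩
        have h4 : a ^ j = a * a ^ (j - 1) := by
          rw [← pow_succ', Nat.sub_add_cancel (by omega)]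
        rw [hc, h4]; ring
      choose! c hc using hbin
      refine ⟨P.add_mem haP hbP, da + db - a * ∑ j ∈ Finset.Ioo 0 q,
        a ^ (j - 1) * b ^ (q - j) * c j, ?_, ?_⟩
      · exact P.sub_mem (P.add_mem hdaP hdbP) (P.mul_mem_right _ haP)
      · have h5 : (a + b) ^ q = a ^ q + b ^ q + ∑ j ∈ Finset.Ioo 0 q,
            a ^ j * b ^ (q - j) * (q.choose j : MvPolynomial σ A) := by
          rw [add_pow, Finset.sum_range_succ]
          have h6 : Finset.range q = insert 0 (Finset.Ioo 0 q) := by
            ext j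
            simp only [Finset.mem_range, Finset.mem_insert, Finset.mem_Ioo]
            omega
          rw [h6, Finset.sum_insert (by simp)]
          simp
          ring
        rw [map_add, hda, hdb, h5, Finset.sum_congr rfl hc, ← Finset.mul_sum, ← Finset.mul_sum]
        ring
  obtain ⟨-, d, hdP, hd⟩ := key _ hs
  obtain ⟨e, he⟩ := hφ s
  rw [map_mul, hcast, he] at hd
  have h1 : s ^ q + (C ϖ : MvPolynomial σ A) * e =
      (C ϖ : MvPolynomial σ A) ^ (q - 1) * s ^ q + d := by
    apply mul_left_cancel₀ hϖC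
    rw [hd, mul_pow, mul_add]
    have h2 : (C ϖ : MvPolynomial σ A) ^ q = C ϖ * (C ϖ : MvPolynomial σ A) ^ (q - 1) := by
      rw [← pow_succ', Nat.sub_add_cancel (by omega)]
    rw [h2]; ring
  have h3 : s ^ q ∈ P := by
    have h4 : s ^ q = (C ϖ : MvPolynomial σ A) ^ (q - 1) * s ^ q + d - (C ϖ) * e := by
      rw [← h1]; ring
    rw [h4]
    refine P.sub_mem (P.add_mem (P.mul_mem_right _ ?_) hdP) (P.mul_mem_right _ hpP)
    exact P.pow_mem_of_mem hpP _ (by omega)
  exact hP.mem_of_pow_mem q h3

end Pool.Agent.H19.NF
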