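import Pool.Agent.H19.NF.Ker

set_option autoImplicit false

namespace Pool.Agent.H19.NF

open MvPolynomial Matrix

variable {F : Type*} [Field F] {k m : ℕ} (S : Matrix (Fin (k + m)) (Fin (k + m)) F)
  (K : Type*) [Field K]
  [Algebra (CRing S) K] (M : Matrix (Fin (k + m)) (Fin (k + m)) F)

/-- The Plücker coordinates. -/
noncomputable def gcoord (J : Fin k → Fin (k + m)) : K := ((WK S K M).submatrix id J).det

variable {S M} in
theorem det_submatrix_eq {J : Fin k → Fin (k + m)} (hJ : gcoord S K M J ≠ 0)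
    (J' : Fin k → Fin (k + m)) :
    gcoord S K M J' = gcoord S K M J * ((ZK S K M J).submatrix id J').det := by
  rw [gcoord, gcoord, ← Matrix.det_mul, ← mul_submatrix_right, WK_mul_ZK S K hJ]

variable {S M} in
theorem ZK_apply_eq {J : Fin k → Fin (k + m)} (hJ : gcoord S K M J ≠ 0)
    (i : Fin k) (c : Fin (k + m)) :
    ZK S K M J i c = gcoord S K M (Function.update J i c) / gcoord S K M J := by
  rw [det_submatrix_eq K hJ, mul_div_cancel_left₀ _ hJ]
  have h1 : (ZK S K M J).submatrix id (Function.update J i c) =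
      (1 : Matrix (Fin k) (Fin k) K).updateCol i (fun a => ZK S K M J a c) := by
    ext a b
    rw [Matrix.submatrix_apply, Matrix.updateCol_apply, id]
    by_cases h : b = i
    · subst h; simp
    · rw [Function.update_of_ne h, if_neg h, ← ZK_one S K hJ]
      rfl
  rw [h1, ← Matrix.cramer_apply, Matrix.cramer_one]
  rfl

variable {A : Type*} [CommRing A] [Algebra A K]

/-- The chart ring over `A` of a family of elements of a field. -/
def cAlg (A : Type*) [CommRing A] {K : Type*} [Field K] [Algebra A K] {ι : Type*} (h : ι → K)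
    (j : ι) : Subalgebra A K := Algebra.adjoin A (Set.range fun i => h i / h j)

variable {S M} in
theorem adjoin_ZK {J : Fin k → Fin (k + m)} (hJ : gcoord S K M J ≠ 0) :
    Algebra.adjoin A (Set.range fun x : Fin k × Fin (k + m) => ZK S K M J x.1 x.2) =
      cAlg A (gcoord S K M) J := by
  apply le_antisymm
  · rw [Algebra.adjoin_le_iff]
    rintro _ ⟨⟨i, c⟩, rfl⟩
    show ZK S K M J i c ∈ _
    rw [ZK_apply_eq K hJ]
    exact Algebra.subset_adjoin ⟨_, rfl⟩
  · rw [cAlg, Algebra.adjoin_le_iff]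
    rintro _ ⟨J', rfl⟩
    show gcoord S K M J' / gcoord S K M J ∈ _
    rw [det_submatrix_eq K hJ, mul_div_cancel_left₀ _ hJ, Matrix.det_apply']
    refine Subalgebra.sum_mem _ fun σ _ => Subalgebra.mul_mem _ ?_ ?_
    · exact Subalgebra.intCast_mem _ _
    · exact Subalgebra.prod_mem _ fun i _ => Algebra.subset_adjoin ⟨(_, _), rfl⟩

variable {Q : Matrix (Fin (k + m)) (Fin (k + m)) A} {c : F}

variable {S M} in
theorem range_phiBar {J : Fin k → Fin (k + m)} (hJ : gcoord S K M J ≠ 0)
    (h : chartIdeal Q J ≤ RingHom.ker (phi S K M J A)) :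
    (phiBar S K M J h).range = (cAlg A (gcoord S K M) J).toSubring := by
  rw [← adjoin_ZK K hJ]
  ext y
  constructor
  · rintro ⟨t, rfl⟩
    obtain ⟨f, rfl⟩ := Ideal.Quotient.mk_surjective t
    show phi S K M J A f ∈ _
    have h1 : phi S K M J A f = aeval (fun x : Fin k × Fin (k + m) => ZK S K M J x.1 x.2) f :=
      rfl
    rw [h1, Subalgebra.mem_toSubring, Algebra.adjoin_range_eq_range_aeval]
    exact ⟨f, rfl⟩
  · intro hy
    rw [Subalgebra.mem_toSubring, Algebra.adjoin_range_eq_range_aeval] at hy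
    obtain ⟨f, hf⟩ := hy
    exact ⟨Ideal.Quotient.mk _ f, hf⟩

variable {S M} in
theorem isRegularRing_cAlg [IsFractionRing (CRing S) K] [CharZero F] [Algebra A F]
    [IsFractionRing A F] [IsDomain A] [IsDiscreteValuationRing A]
    [Finite (IsLocalRing.ResidueField A)]
    (hAK : ∀ a, rK S K (algebraMap A F a) = algebraMap A K a)
    (hS : Sᵀ = S) (hM : M.det ≠ 0) (hc : c ≠ 0)
    (hQ : (Q + Qᵀ).map (algebraMap A F) = c • (Mᵀ * (S + Sᵀ) * M))
    (hdet : (Q + Q.transpose).det ≠ 0) (hgood : Good Q)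
    {J : Fin k → Fin (k + m)} (hJ : gcoord S K M J ≠ 0) :
    IsRegularRing (cAlg A (gcoord S K M) J) := by
  have h := chartIdeal_le_ker K hAK hS hM hQ hJ
  have h0 := isRegularRing_chartIdeal Q hdet hgood J
  have h1 := OG.isRegularRing_quotient_ker (phiBar S K M J h)
    (ker_killed K hAK hS hM hc hQ hJ h)
  let e1 : (_ ⧸ RingHom.ker (phiBar S K M J h)) ≃+* (phiBar S K M J h).range :=
    RingHom.quotientKerEquivRange (phiBar S K M J h)
  let e2 : (phiBar S K M J h).range ≃+* (cAlg A (gcoord S K M) J).toSubring :=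
    RingEquiv.subringCongr (range_phiBar K hJ h)
  let e3 : ((MvPolynomial (Fin k × Fin (k + m)) A ⧸ chartIdeal Q J) ⧸
    RingHom.ker (phiBar S K M J h)) ≃+* cAlg A (gcoord S K M) J := e1.trans e2
  exact IsRegularRing.of_ringEquiv (R := (MvPolynomial (Fin k × Fin (k + m)) A ⧸
    chartIdeal Q J) ⧸ RingHom.ker (phiBar S K M J h)) e3

end Pool.Agent.H19.NF
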