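import Pool.Agent.H19.NF.ChartA
import Pool.Agent.H19.OG.Reg

set_option autoImplicit false

namespace Pool.Agent.H19.NF

open MvPolynomial IsLocalRing Pool.Agent.H97

universe u

variable {A : Type u} [CommRing A] {k N : ℕ}

/-- The family of all relations of a chart. -/
noncomputable def relFam (Q : Matrix (Fin N) (Fin N) A) (J : Fin k → Fin N) :
    (Fin k × Fin k) ⊕ {x : Fin k × Fin k // x.1 ≤ x.2} → MvPolynomial (Fin k × Fin N) A :=
  Sum.elim (fun x => lrel A J x.1 x.2) (fun x => qrel Q (zrow A) x.1.1 x.1.2)

/-- The ideal of relations of a chart. -/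
noncomputable def chartIdeal (Q : Matrix (Fin N) (Fin N) A) (J : Fin k → Fin N) :
    Ideal (MvPolynomial (Fin k × Fin N) A) := Ideal.span (Set.range (relFam Q J))

/-- The chart algebra is a regular ring. -/
theorem isRegularRing_chartIdeal [IsDomain A] [IsDiscreteValuationRing A]
    [Finite (ResidueField A)] (Q : Matrix (Fin N) (Fin N) A)
    (hdet : (Q + Q.transpose).det ≠ 0) (hQg : Good Q) (J : Fin k → Fin N) :
    IsRegularRing (MvPolynomial (Fin k × Fin N) A ⧸ chartIdeal Q J) := by
  classical
  let e := (Fintype.equivFin ((Fin k × Fin k) ⊕ {x : Fin k × Fin k // x.1 ≤ x.2}))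
  have h := isRegularRing_quotient (fun x => relFam Q J (e.symm x)) (by
    intro P hP hf a t ht hmem
    have hrel : ∀ x, relFam Q J x ∈ P := by
      intro x
      have := hf (e x)
      simpa using this
    have hL : ∀ i j, lrel A J i j ∈ P := fun i j => hrel (Sum.inl (i, j))
    have hQ : ∀ i j, i ≤ j → qrel Q (zrow A) i j ∈ P := fun i j hij => hrel (Sum.inr ⟨(i, j), hij⟩)
    have h1 := indep Q hdet hQg J P hL hQ (fun i j => a (e (Sum.inl (i, j))))
      (fun i j => if h : i ≤ j then a (e (Sum.inr ⟨(i, j), h⟩)) else 0)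
      (fun i j hij => by simp [not_le.mpr hij]) t ht (by
        have h2 : ∑ x, a x * relFam Q J (e.symm x) = ∑ x, a (e x) * relFam Q J x := by
          rw [← Equiv.sum_comp e]
          simp
        rw [h2, Fintype.sum_sum_type, OG.sum_subtype_le] at hmem
        convert hmem using 3
        · rw [Fintype.sum_prod_type]
          rfl
        · refine Finset.sum_congr rfl fun i _ => Finset.sum_congr rfl fun j _ => ?_
          split_ifs
          · rfl
          · rw [zero_mul])
    intro x
    rw [← e.apply_symm_apply x]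
    rcases e.symm x with ⟨i, j⟩ | ⟨⟨i, j⟩, hij⟩
    · exact h1.1 i j
    · have h3 := h1.2 i j
      have hij' : i ≤ j := hij
      simpa [hij'] using h3)
  have hr : Set.range (fun x => relFam Q J (e.symm x)) = Set.range (relFam Q J) :=
    e.symm.surjective.range_comp (relFam Q J)
  rw [hr] at h
  exact h

end Pool.Agent.H19.NF
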