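import Mathlib

set_option autoImplicit false

namespace Pool.Agent.H19.NF

section

variable {O : Type*} [CommRing O] [IsDedekindDomain O]

theorem exists_pow_dvd (𝔮 : Ideal O) (h𝔮 : 𝔮.IsMaximal) (e : O) (he : e ≠ 0) :
    ∃ n : ℕ, ∀ t ∈ 𝔮 ^ n, ∃ y, y ∉ 𝔮 ∧ e ∣ y * t := by
  have h1 : FiniteMultiplicity 𝔮 (Ideal.span {e}) := by
    apply FiniteMultiplicity.of_not_isUnit
    · rw [Ideal.isUnit_iff]; exact h𝔮.ne_top
    · rw [Ne, Ideal.zero_eq_bot, Ideal.span_singleton_eq_bot]; exact he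
  obtain ⟨I, hI, hnd⟩ := h1.exists_eq_pow_mul_and_not_dvd
  refine ⟨multiplicity 𝔮 (Ideal.span {e}), fun t ht => ?_⟩
  rw [Ideal.dvd_iff_le] at hnd
  obtain ⟨y, hyI, hy⟩ := Set.not_subset.mp hnd
  refine ⟨y, hy, ?_⟩
  rw [← Ideal.mem_span_singleton, hI, mul_comm y t]
  exact Ideal.mul_mem_mul ht hyI

theorem finite_maximal_of_mem (d : O) (hd : d ≠ 0) :
    {𝔮 : Ideal O | 𝔮.IsMaximal ∧ d ∈ 𝔮}.Finite := by
  have h1 : (Ideal.span {d} : Ideal O) ≠ 0 := by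
    rw [Ne, Ideal.zero_eq_bot, Ideal.span_singleton_eq_bot]; exact hd
  have h2 := Ideal.finite_factors h1
  refine (h2.image fun v => v.asIdeal).subset ?_
  rintro 𝔮 ⟨h𝔮, hd𝔮⟩
  have h0 : 𝔮 ≠ ⊥ := by
    rintro rfl
    exact hd hd𝔮
  refine ⟨⟨𝔮, h𝔮.isPrime, h0⟩, ?_, rfl⟩
  show 𝔮 ∣ Ideal.span {d}
  rw [Ideal.dvd_iff_le, Ideal.span_singleton_le_iff_mem]
  exact hd𝔮

end

section

variable {O F K : Type*} [CommRing O] [IsDomain O] [Field F] [Algebra O F] [IsFractionRing O F]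
  [AddCommGroup K] [Module F K] [Module O K] [IsScalarTower O F K]

theorem exists_smul_mem_span {s : Set K} {x : K} (hx : x ∈ Submodule.span F s) :
    ∃ c : O, c ≠ 0 ∧ c • x ∈ Submodule.span O s := by
  induction hx using Submodule.span_induction with
  | mem x hx => exact ⟨1, one_ne_zero, by rw [one_smul]; exact Submodule.subset_span hx⟩
  | zero => exact ⟨1, one_ne_zero, by rw [smul_zero]; exact Submodule.zero_mem _⟩
  | add x y _ _ hx hy =>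
    obtain ⟨c, hc, hcx⟩ := hx
    obtain ⟨c', hc', hcy⟩ := hy
    refine ⟨c * c', mul_ne_zero hc hc', ?_⟩
    rw [smul_add]
    refine Submodule.add_mem _ ?_ ?_
    · rw [mul_comm, mul_smul]; exact Submodule.smul_mem _ _ hcx
    · rw [mul_smul]; exact Submodule.smul_mem _ _ hcy
  | smul a x _ hx =>
    obtain ⟨c, hc, hcx⟩ := hx
    obtain ⟨p, q, hq, rfl⟩ := IsFractionRing.div_surjective (A := O) a
    have hq0 : q ≠ 0 := nonZeroDivisors.ne_zero hq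
    refine ⟨q * c, mul_ne_zero hq0 hc, ?_⟩
    have hqF : algebraMap O F q ≠ 0 := by
      rw [Ne, map_eq_zero_iff _ (IsFractionRing.injective O F)]; exact hq0
    have h1 : (q * c) • (algebraMap O F p / algebraMap O F q) • x = p • c • x := by
      rw [← IsScalarTower.algebraMap_smul F (q * c) _, ← IsScalarTower.algebraMap_smul F p (c • x),
        ← IsScalarTower.algebraMap_smul F c x, smul_smul, smul_smul]
      congr 1
      rw [map_mul]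
      field_simp
    rw [h1]
    exact Submodule.smul_mem _ _ hcx

theorem exists_smul_mem_span_family {J : Type*} [Finite J] {s : Set K} (h : J → K)
    (hx : ∀ j, h j ∈ Submodule.span F s) :
    ∃ c : O, c ≠ 0 ∧ ∀ j, c • h j ∈ Submodule.span O s := by
  classical
  have := Fintype.ofFinite J
  choose c hc hcj using fun j => exists_smul_mem_span (O := O) (hx j)
  refine ⟨∏ j, c j, Finset.prod_ne_zero_iff.mpr fun j _ => hc j, fun j => ?_⟩
  rw [← Finset.prod_erase_mul _ _ (Finset.mem_univ j), mul_smul]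
  exact Submodule.smul_mem _ _ (hcj j)

end

section

variable {O F K : Type*} [CommRing O] [IsDedekindDomain O] [Field F] [Algebra O F]
  [IsFractionRing O F] [AddCommGroup K] [Module F K] [Module O K] [IsScalarTower O F K]

/-- Gluing of local lattices, up to scaling. -/
theorem exists_glued {I : Type*} [Finite I] (h0 : I → K) (d : O) (hd : d ≠ 0)
    (J : Ideal O → Type) (hJ : ∀ 𝔮, Finite (J 𝔮)) (h : ∀ 𝔮, J 𝔮 → K)
    (h1 : ∀ 𝔮 : Ideal O, 𝔮.IsMaximal → d ∈ 𝔮 →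
      Submodule.span F (Set.range (h 𝔮)) = Submodule.span F (Set.range h0)) :
    ∃ V : Submodule O K, V.FG ∧ V ≤ Submodule.span O (Set.range h0) ∧
      (∃ e : O, e ≠ 0 ∧ ∀ i, e • h0 i ∈ V) ∧
      (∀ 𝔮 : Ideal O, 𝔮.IsMaximal → d ∉ 𝔮 → ∀ i, ∃ y, y ∉ 𝔮 ∧ y • h0 i ∈ V) ∧
      (∀ 𝔮 : Ideal O, 𝔮.IsMaximal → d ∈ 𝔮 → ∃ c : O, c ≠ 0 ∧
        (∀ j, ∃ y, y ∉ 𝔮 ∧ y • c • h 𝔮 j ∈ V) ∧
        ∀ v ∈ V, ∃ y, y ∉ 𝔮 ∧ y • v ∈ Submodule.span O (Set.range fun j => c • h 𝔮 j)) := by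
  classical
  have hfin := finite_maximal_of_mem d hd
  set Bad : Finset (Ideal O) := hfin.toFinset with hBad
  have hmem : ∀ 𝔮, 𝔮 ∈ Bad ↔ 𝔮.IsMaximal ∧ d ∈ 𝔮 := fun 𝔮 => by
    rw [hBad, Set.Finite.mem_toFinset, Set.mem_ofPred_eq]
  set V0 := Submodule.span O (Set.range h0) with hV0
  -- the scaling
  have hc : ∀ 𝔮, ∃ c : O, c ≠ 0 ∧ (𝔮 ∈ Bad → ∀ j, c • h 𝔮 j ∈ V0) := by
    intro 𝔮
    by_cases h𝔮 : 𝔮 ∈ Bad
    · have h2 := (hmem 𝔮).mp h𝔮
      have := hJ 𝔮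
      obtain ⟨c, hc, hcj⟩ := exists_smul_mem_span_family (O := O) (F := F) (s := Set.range h0) (h 𝔮)
        (fun j => by
          rw [← h1 𝔮 h2.1 h2.2]
          exact Submodule.subset_span ⟨j, rfl⟩)
      exact ⟨c, hc, fun _ => hcj⟩
    · exact ⟨1, one_ne_zero, fun h => absurd h h𝔮⟩
  choose c hc0 hc using hc
  set h' : ∀ 𝔮, J 𝔮 → K := fun 𝔮 j => c 𝔮 • h 𝔮 j with hh'
  have hn : ∀ 𝔮, ∃ n : ℕ, 𝔮 ∈ Bad → ∀ t ∈ 𝔮 ^ n, ∃ y, y ∉ 𝔮 ∧ ∀ v ∈ V0,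
      y • t • v ∈ Submodule.span O (Set.range (h' 𝔮)) := by
    intro 𝔮
    by_cases h𝔮 : 𝔮 ∈ Bad
    · have h2 := (hmem 𝔮).mp h𝔮
      obtain ⟨e, he, hei⟩ := exists_smul_mem_span_family (O := O) (F := F)
        (s := Set.range (h' 𝔮)) h0 (fun i => by
          have h3 : h0 i ∈ Submodule.span F (Set.range (h 𝔮)) := by
            rw [h1 𝔮 h2.1 h2.2]
            exact Submodule.subset_span ⟨i, rfl⟩
          have h4 : Submodule.span F (Set.range (h 𝔮)) ≤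
              Submodule.span F (Set.range (h' 𝔮)) := by
            rw [Submodule.span_le]
            rintro _ ⟨j, rfl⟩
            have h5 : h 𝔮 j = (algebraMap O F (c 𝔮))⁻¹ • h' 𝔮 j := by
              show _ = (algebraMap O F (c 𝔮))⁻¹ • (c 𝔮 • h 𝔮 j)
              rw [← IsScalarTower.algebraMap_smul F (c 𝔮) (h 𝔮 j), smul_smul, inv_mul_cancel₀,
                one_smul]
              rw [Ne, map_eq_zero_iff _ (IsFractionRing.injective O F)]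
              exact hc0 𝔮
            rw [h5]
            exact Submodule.smul_mem _ _ (Submodule.subset_span ⟨j, rfl⟩)
          exact h4 h3)
      obtain ⟨n, hn⟩ := exists_pow_dvd 𝔮 h2.1 e he
      refine ⟨n, fun _ t ht => ?_⟩
      obtain ⟨y, hy, z, hz⟩ := hn t ht
      refine ⟨y, hy, fun v hv => ?_⟩
      have h6 : V0 ≤ (Submodule.span O (Set.range (h' 𝔮))).comap (LinearMap.lsmul O K e) := by
        rw [hV0, Submodule.span_le]
        rintro _ ⟨i, rfl⟩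
        exact hei i
      have h7 : e • v ∈ Submodule.span O (Set.range (h' 𝔮)) := h6 hv
      rw [smul_smul, hz, mul_comm, mul_smul]
      exact Submodule.smul_mem _ _ h7
    · exact ⟨0, fun h => absurd h h𝔮⟩
  choose n hn using hn
  set N : ℕ := ∑ 𝔮 ∈ Bad, n 𝔮 with hN
  have hnN : ∀ 𝔮 ∈ Bad, n 𝔮 ≤ N := fun 𝔮 h𝔮 =>
    Finset.single_le_sum (f := n) (fun _ _ => Nat.zero_le _) h𝔮
  have ht : ∀ 𝔮 : Ideal O, ∃ t : O, 𝔮 ∈ Bad → t ∉ 𝔮 ∧ ∀ 𝔮' ∈ Bad, 𝔮' ≠ 𝔮 → t ∈ 𝔮' ^ N := by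
    intro 𝔮
    by_cases h𝔮 : 𝔮 ∈ Bad
    · have h2 := (hmem 𝔮).mp h𝔮
      have h3 : ¬ (∏ 𝔮' ∈ Bad.erase 𝔮, 𝔮' ^ N) ≤ 𝔮 := by
        intro h4
        rw [Ideal.IsPrime.prod_le h2.1.isPrime] at h4
        obtain ⟨𝔮', h𝔮', hle⟩ := h4
        rw [Finset.mem_erase] at h𝔮'
        have h5 := h2.1.isPrime.le_of_pow_le hle
        have h6 := ((hmem 𝔮').mp h𝔮'.2).1.eq_of_le h2.1.ne_top h5
        exact h𝔮'.1 h6
      obtain ⟨t, ht, ht𝔮⟩ := Set.not_subset.mp h3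
      refine ⟨t, fun _ => ⟨ht𝔮, fun 𝔮' h𝔮' hne => ?_⟩⟩
      have h4 : (∏ 𝔮' ∈ Bad.erase 𝔮, 𝔮' ^ N) ≤ 𝔮' ^ N := by
        refine Ideal.le_of_dvd (Finset.dvd_prod_of_mem _ ?_)
        exact Finset.mem_erase.mpr ⟨hne, h𝔮'⟩
      exact h4 ht
    · exact ⟨0, fun h => absurd h h𝔮⟩
  choose t ht using ht
  set T : Set K := (⋃ 𝔮 ∈ Bad, Set.range fun j => t 𝔮 • h' 𝔮 j) ∪
    Set.range fun i => d ^ N • h0 i with hT
  have hTfin : T.Finite := by
    refine Set.Finite.union ?_ (Set.finite_range _)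
    refine Set.Finite.biUnion Bad.finite_toSet fun 𝔮 _ => ?_
    have := hJ 𝔮
    exact Set.finite_range _
  have hVV0 : Submodule.span O T ≤ V0 := by
    rw [Submodule.span_le]
    rintro _ (hx | ⟨i, rfl⟩)
    · simp only [Set.mem_iUnion] at hx
      obtain ⟨𝔮, h𝔮, j, rfl⟩ := hx
      exact Submodule.smul_mem _ _ (hc 𝔮 h𝔮 j)
    · exact Submodule.smul_mem _ _ (Submodule.subset_span ⟨i, rfl⟩)
  refine ⟨Submodule.span O T, ⟨hTfin.toFinset, by rw [Set.Finite.coe_toFinset]⟩, hVV0,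
    ⟨d ^ N, pow_ne_zero _ hd, fun i => Submodule.subset_span (Or.inr ⟨i, rfl⟩)⟩, ?_, ?_⟩
  · intro 𝔮 h𝔮 hd𝔮 i
    exact ⟨d ^ N, fun h => hd𝔮 (h𝔮.isPrime.mem_of_pow_mem _ h),
      Submodule.subset_span (Or.inr ⟨i, rfl⟩)⟩
  · intro 𝔮 h𝔮 hd𝔮
    have hB : 𝔮 ∈ Bad := (hmem 𝔮).mpr ⟨h𝔮, hd𝔮⟩
    refine ⟨c 𝔮, hc0 𝔮, fun j => ⟨t 𝔮, (ht 𝔮 hB).1, Submodule.subset_span (Or.inl ?_)⟩, ?_⟩
    · simp only [Set.mem_iUnion]
      exact ⟨𝔮, hB, j, rfl⟩
    · have hkey : ∀ v ∈ V0, ∀ z ∈ 𝔮 ^ N, ∃ y, y ∉ 𝔮 ∧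
          y • z • v ∈ Submodule.span O (Set.range (h' 𝔮)) := by
        intro v hv z hz
        obtain ⟨y, hy, hyv⟩ := hn 𝔮 hB z (Ideal.pow_le_pow_right (hnN 𝔮 hB) hz)
        exact ⟨y, hy, hyv v hv⟩
      intro v hv
      induction hv using Submodule.span_induction with
      | mem x hx =>
        rcases hx with hx | ⟨i, rfl⟩
        · simp only [Set.mem_iUnion] at hx
          obtain ⟨𝔮', h𝔮', j, rfl⟩ := hx
          by_cases heq : 𝔮' = 𝔮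
          · subst heq
            refine ⟨1, (Ideal.ne_top_iff_one _).mp h𝔮.ne_top, ?_⟩
            rw [one_smul]
            exact Submodule.smul_mem _ _ (Submodule.subset_span ⟨j, rfl⟩)
          · exact hkey _ (hc 𝔮' h𝔮' j) _ ((ht 𝔮' h𝔮').2 𝔮 hB (Ne.symm heq))
        · exact hkey _ (Submodule.subset_span ⟨i, rfl⟩) _ (Ideal.pow_mem_pow hd𝔮 N)
      | zero =>
        exact ⟨1, (Ideal.ne_top_iff_one _).mp h𝔮.ne_top, by
          rw [smul_zero]; exact Submodule.zero_mem _⟩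
      | add x y _ _ hx hy =>
        obtain ⟨a, ha, hax⟩ := hx
        obtain ⟨b, hb, hby⟩ := hy
        refine ⟨a * b, fun h => (h𝔮.isPrime.mem_or_mem h).elim ha hb, ?_⟩
        rw [smul_add]
        refine Submodule.add_mem _ ?_ ?_
        · rw [mul_comm, mul_smul]; exact Submodule.smul_mem _ _ hax
        · rw [mul_smul]; exact Submodule.smul_mem _ _ hby
      | smul a x _ hx =>
        obtain ⟨b, hb, hbx⟩ := hx
        refine ⟨b, hb, ?_⟩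
        rw [smul_comm]
        exact Submodule.smul_mem _ _ hbx

end

end Pool.Agent.H19.NF
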