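import Pool.Agent.H19.NF.Sec
import Pool.Agent.H19.OG.Ker

set_option autoImplicit false

namespace Pool.Agent.H19.NF

open MvPolynomial Matrix

variable {F : Type*} [Field F] {k m : ℕ} (S : Matrix (Fin (k + m)) (Fin (k + m)) F)
  (K : Type*) [Field K]
  [Algebra (CRing S) K] (M : Matrix (Fin (k + m)) (Fin (k + m)) F) (J : Fin k → Fin (k + m))
  {A : Type*} [CommRing A] [Algebra A F] [Algebra A K]

/-- The homomorphism from the polynomial ring to `K` given by the matrix `ZK`. -/
noncomputable def phi (A : Type*) [CommRing A] [Algebra A K] :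
    MvPolynomial (Fin k × Fin (k + m)) A →+* K :=
  eval₂Hom (algebraMap A K) fun x => ZK S K M J x.1 x.2

theorem phi_X (x : Fin k × Fin (k + m)) : phi S K M J A (X x) = ZK S K M J x.1 x.2 := by
  simp [phi]

theorem phi_C (a : A) : phi S K M J A (C a) = algebraMap A K a := by
  simp [phi]

variable {Q : Matrix (Fin (k + m)) (Fin (k + m)) A} {c : F}

variable {S M J} in
theorem chartIdeal_le_ker [CharZero F] (hAK : ∀ a, rK S K (algebraMap A F a) = algebraMap A K a)
    (hS : Sᵀ = S) (hM : M.det ≠ 0)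
    (hQ : (Q + Qᵀ).map (algebraMap A F) = c • (Mᵀ * (S + Sᵀ) * M))
    (hJ : ((WK S K M).submatrix id J).det ≠ 0) :
    chartIdeal Q J ≤ RingHom.ker (phi S K M J A) := by
  have hK : CharZero K := charZero_of_injective_ringHom (rK S K).injective
  rw [chartIdeal, Ideal.span_le]
  rintro _ ⟨x, rfl⟩
  rw [SetLike.mem_coe, RingHom.mem_ker]
  rcases x with ⟨i, j⟩ | ⟨⟨i, j⟩, hij⟩
  · show phi S K M J A (lrel A J i j) = 0
    rw [lrel, map_sub, phi_X]
    have h1 : ZK S K M J i (J j) = (1 : Matrix (Fin k) (Fin k) K) i j := by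
      rw [← ZK_one S K hJ]; rfl
    show ZK S K M J i (J j) - _ = 0
    rw [h1, Matrix.one_apply]
    split_ifs <;> simp
  · show phi S K M J A (qrel Q (zrow A) i j) = 0
    rw [map_qrel Q _ (fun a => phi_C S K M J a)]
    have h2 : (fun i c => phi S K M J A (zrow A i c)) = ZK S K M J := by
      ext i c
      rw [zrow, phi_X]
    rw [h2, qrel]
    have h3 := bf_ZK (J := J) K hAK hS hM hQ
    split_ifs with h
    · exact qf_eq_zero_of_bf (h3 i i)
    · exact h3 i j

/-- The homomorphism from the chart algebra to `K`. -/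
noncomputable def phiBar (h : chartIdeal Q J ≤ RingHom.ker (phi S K M J A)) :
    (MvPolynomial (Fin k × Fin (k + m)) A ⧸ chartIdeal Q J) →+* K :=
  Ideal.Quotient.lift (chartIdeal Q J) (phi S K M J A) (fun _ ha => h ha)

variable {S M J} in
/-- Abstract version, for a ring `L` over the chart algebra. -/
theorem algebraMap_eq_zero [IsFractionRing (CRing S) K] [CharZero F] [IsFractionRing A F]
    (hAK : ∀ a, rK S K (algebraMap A F a) = algebraMap A K a)
    (hS : Sᵀ = S) (hM : M.det ≠ 0)
    (hc : c ≠ 0)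
    (hQ : (Q + Qᵀ).map (algebraMap A F) = c • (Mᵀ * (S + Sᵀ) * M))
    (hJ : ((WK S K M).submatrix id J).det ≠ 0)
    (h : chartIdeal Q J ≤ RingHom.ker (phi S K M J A))
    {L : Type*} [CommRing L] (π : L →+* K) (hLunit : ∀ y : L, π y ≠ 0 → IsUnit y)
    (a : (MvPolynomial (Fin k × Fin (k + m)) A ⧸ chartIdeal Q J) →+* L)
    (hπ : ∀ t, π (a t) = phiBar S K M J h t)
    (x : MvPolynomial (Fin k × Fin (k + m)) A ⧸ chartIdeal Q J)
    (hx : phiBar S K M J h x = 0) : a x = 0 := by
  classical
  let algL : Algebra A L := (a.comp ((Ideal.Quotient.mk _).comp C)).toAlgebra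
  have haL : ∀ b : A, algebraMap A L b = a (Ideal.Quotient.mk _ (C b)) := fun b => rfl
  have hπA : ∀ b : A, π (algebraMap A L b) = rK S K (algebraMap A F b) := by
    intro b
    rw [haL, hπ, hAK]
    exact phi_C S K M J b
  -- the generic matrix over `L`
  let Zt : Matrix (Fin k) (Fin (k + m)) L :=
    Matrix.of fun i c => a (Ideal.Quotient.mk _ (X (i, c)))
  have hZt1 : Zt.submatrix id J = 1 := by
    ext i j
    have h1 : Ideal.Quotient.mk (chartIdeal Q J) (lrel A J i j) = 0 :=
      Ideal.Quotient.eq_zero_iff_mem.mpr (Ideal.subset_span ⟨Sum.inl (i, j), rfl⟩)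
    rw [lrel, map_sub, sub_eq_zero] at h1
    show a (Ideal.Quotient.mk _ (X (i, J j))) = _
    rw [h1, Matrix.one_apply]
    split_ifs <;> simp
  have hZt2 : ∀ i j, bf Q (Zt i) (Zt j) = 0 := by
    apply bf_eq_zero_of_qrel
    intro i j hij
    have h1 : Ideal.Quotient.mk (chartIdeal Q J) (qrel Q (zrow A) i j) = 0 :=
      Ideal.Quotient.eq_zero_iff_mem.mpr (Ideal.subset_span ⟨Sum.inr ⟨(i, j), hij⟩, rfl⟩)
    have h2 := congrArg a h1
    rw [map_zero] at h2
    rw [← h2]
    have h3 := map_qrel Q (a.comp (Ideal.Quotient.mk (chartIdeal Q J)))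
      (fun b => (haL b).symm) (zrow A (k := k) (N := k + m)) i j
    rw [RingHom.comp_apply] at h3
    rw [h3]
    rfl
  have hπZ : Zt.map π = ZK S K M J := by
    ext i c
    rw [Matrix.map_apply]
    show π (a (Ideal.Quotient.mk _ (X (i, c)))) = _
    rw [hπ]
    show phi S K M J A (X (i, c)) = _
    rw [phi_X]
  obtain ⟨σ, hσ, hσA⟩ := exists_section K hS hM hc hQ hJ π hπA hLunit Zt hZt1 hZt2 hπZ
  have hfin : a.comp (Ideal.Quotient.mk (chartIdeal Q J)) = σ.comp (phi S K M J A) := by
    apply MvPolynomial.ringHom_ext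
    · intro z
      rw [RingHom.comp_apply, RingHom.comp_apply, phi_C, ← haL, ← hσA, hAK]
    · rintro ⟨i, c⟩
      rw [RingHom.comp_apply, RingHom.comp_apply, phi_X]
      have := congrFun (congrFun hσ i) c
      rw [Matrix.map_apply] at this
      rw [this]
      rfl
  obtain ⟨f, rfl⟩ := Ideal.Quotient.mk_surjective x
  have h2 := RingHom.congr_fun hfin f
  rw [RingHom.comp_apply, RingHom.comp_apply] at h2
  rw [h2]
  have h3 : phi S K M J A f = 0 := hx
  rw [h3, map_zero]

variable {S M J} in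
/-- The kernel of the homomorphism from the chart algebra to `K` is killed by elements
outside of the kernel. -/
theorem ker_killed [IsFractionRing (CRing S) K] [CharZero F] [IsFractionRing A F]
    (hAK : ∀ a, rK S K (algebraMap A F a) = algebraMap A K a)
    (hS : Sᵀ = S) (hM : M.det ≠ 0) (hc : c ≠ 0)
    (hQ : (Q + Qᵀ).map (algebraMap A F) = c • (Mᵀ * (S + Sᵀ) * M))
    (hJ : ((WK S K M).submatrix id J).det ≠ 0)
    (h : chartIdeal Q J ≤ RingHom.ker (phi S K M J A))
    (x : MvPolynomial (Fin k × Fin (k + m)) A ⧸ chartIdeal Q J)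
    (hx : phiBar S K M J h x = 0) :
    ∃ w, phiBar S K M J h w ≠ 0 ∧ w * x = 0 := by
  refine OG.exists_kill (phiBar S K M J h) (fun L _ π hL a ha y hy => ?_) x hx
  exact algebraMap_eq_zero K hAK hS hM hc hQ hJ h π hL a ha y hy

end Pool.Agent.H19.NF
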