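import Pool.Agent.H19.NF.Sing

set_option autoImplicit false

namespace Pool.Agent.H19.NF

open Matrix IsLocalRing

section Rep

variable {n : ℕ} {A : Type*} [CommRing A] {F : Type*} [Field F] [Algebra A F]

/-- The matrix `Q` over `A` represents, up to a nonzero scalar and a change of coordinates,
the quadratic form over `F` with coefficient matrix `S`. -/
def Rep (S : Matrix (Fin n) (Fin n) F) (Q : Matrix (Fin n) (Fin n) A) : Prop :=
  ∃ (M : Matrix (Fin n) (Fin n) F) (c : F), M.det ≠ 0 ∧ c ≠ 0 ∧
    (Q + Qᵀ).map (algebraMap A F) = c • (Mᵀ * (S + Sᵀ) * M)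

theorem bf_eq_dotProduct {ι : Type*} [Fintype ι] {R : Type*} [CommRing R] [Algebra A R]
    (Q : Matrix ι ι A) (x y : ι → R) :
    bf Q x y = x ⬝ᵥ ((Q + Qᵀ).map (algebraMap A R)).mulVec y := by
  simp only [bf, dotProduct, mulVec, Matrix.map_apply, Matrix.add_apply, Matrix.transpose_apply,
    map_add, Finset.mul_sum]
  have h1 : ∀ i j, algebraMap A R (Q i j) * (x i * y j + y i * x j) =
      algebraMap A R (Q i j) * (x i * y j) + algebraMap A R (Q i j) * (y i * x j) :=
    fun i j => by ring
  simp only [h1, Finset.sum_add_distrib]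
  rw [Finset.sum_comm (f := fun i j => algebraMap A R (Q i j) * (y i * x j))]
  simp only [← Finset.sum_add_distrib]
  refine Finset.sum_congr rfl fun i _ => Finset.sum_congr rfl fun j _ => ?_
  ring

/-- A symmetric matrix with even diagonal is of the form `Q + Qᵀ`. -/
theorem exists_add_transpose (G : Matrix (Fin n) (Fin n) A) (hs : Gᵀ = G)
    (he : ∀ i, ∃ z, G i i = 2 * z) : ∃ Q : Matrix (Fin n) (Fin n) A, Q + Qᵀ = G := by
  choose z hz using he
  refine ⟨Matrix.of fun i j => if i = j then z i else if i < j then G i j else 0, ?_⟩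
  ext i j
  have hsym : G j i = G i j := by
    have := congrFun (congrFun hs i) j
    simpa using this
  rw [Matrix.add_apply, Matrix.transpose_apply, Matrix.of_apply, Matrix.of_apply]
  rcases lt_trichotomy i j with h | h | h
  · simp [h.ne, h.ne', h, not_lt.mpr h.le]
  · subst h
    simp only [if_true]
    rw [hz i]; ring
  · simp [h.ne, h.ne', h, not_lt.mpr h.le, hsym]

theorem dotProduct_transform {R : Type*} [CommRing R] (G M : Matrix (Fin n) (Fin n) R)
    (x y : Fin n → R) : x ⬝ᵥ (Mᵀ * G * M).mulVec y = M.mulVec x ⬝ᵥ G.mulVec (M.mulVec y) := by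
  rw [← Matrix.mulVec_mulVec, ← Matrix.mulVec_mulVec, Matrix.dotProduct_mulVec,
    Matrix.vecMul_transpose]

variable [IsDomain A] [IsFractionRing A F]

/-- A transform of an integral form which takes integral values on integral vectors
is again given by an integral matrix. -/
theorem exists_transform (Q : Matrix (Fin n) (Fin n) A) (M : Matrix (Fin n) (Fin n) F) (c : F)
    (h : ∀ x : Fin n → A, ∃ z : A,
      c * qf Q (M.mulVec fun i => algebraMap A F (x i)) = algebraMap A F z) :
    ∃ Q' : Matrix (Fin n) (Fin n) A,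
      (Q' + Q'ᵀ).map (algebraMap A F) = c • (Mᵀ * (Q + Qᵀ).map (algebraMap A F) * M) := by
  set G : Matrix (Fin n) (Fin n) F := c • (Mᵀ * (Q + Qᵀ).map (algebraMap A F) * M) with hG
  have hinj := IsFractionRing.injective A F
  have hentry : ∀ i j, G i j = c * bf Q (M.mulVec (Pi.single i 1)) (M.mulVec (Pi.single j 1)) := by
    intro i j
    rw [bf_eq_dotProduct, hG, Matrix.smul_apply, smul_eq_mul]
    congr 1
    rw [← dotProduct_transform]
    simp
  have hcast : ∀ (i : Fin n), (fun k => algebraMap A F ((Pi.single i 1 : Fin n → A) k)) =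
      (Pi.single i 1 : Fin n → F) := by
    intro i
    ext k
    by_cases hk : k = i
    · subst hk; simp
    · simp [hk]
  have hdiag : ∀ i, ∃ z : A, G i i = algebraMap A F (2 * z) := by
    intro i
    obtain ⟨z, hz⟩ := h (Pi.single i 1)
    refine ⟨z, ?_⟩
    rw [hcast] at hz
    rw [hentry, bf_self, map_mul, ← hz, map_ofNat]
    ring
  have hint : ∀ i j, ∃ z : A, G i j = algebraMap A F z := by
    intro i j
    obtain ⟨z, hz⟩ := h (Pi.single i 1)
    obtain ⟨z', hz'⟩ := h (Pi.single j 1)
    obtain ⟨z'', hz''⟩ := h (Pi.single i 1 + Pi.single j 1)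
    rw [hcast] at hz hz'
    refine ⟨z'' - z - z', ?_⟩
    have h1 : (fun k => algebraMap A F ((Pi.single i 1 + Pi.single j 1 : Fin n → A) k)) =
      Pi.single i 1 + Pi.single j 1 := by
      rw [← hcast i, ← hcast j]
      ext k
      simp
    rw [h1, Matrix.mulVec_add, qf_add] at hz''
    rw [hentry, map_sub, map_sub, ← hz, ← hz', ← hz'']
    ring
  choose g hg using hint
  have hsymm : Gᵀ = G := by
    ext i j
    rw [Matrix.transpose_apply, hentry, hentry, bf_comm]
  obtain ⟨Q', hQ'⟩ := exists_add_transpose (Matrix.of g) (by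
      ext i j
      have h1 := congrFun (congrFun hsymm i) j
      rw [Matrix.transpose_apply, hg, hg] at h1
      simpa using hinj h1) (by
      intro i
      obtain ⟨z, hz⟩ := hdiag i
      rw [hg] at hz
      exact ⟨z, by rw [Matrix.of_apply]; exact hinj hz⟩)
  refine ⟨Q', ?_⟩
  rw [hQ']
  ext i j
  rw [Matrix.map_apply, Matrix.of_apply, hg]

theorem exists_rep (S : Matrix (Fin n) (Fin n) F) : ∃ Q : Matrix (Fin n) (Fin n) A, Rep S Q := by
  classical
  obtain ⟨b, hb⟩ := IsLocalization.exist_integer_multiples_of_finset (nonZeroDivisors A)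
    (Finset.univ.image fun x : Fin n × Fin n => S x.1 x.2)
  have hint : ∀ i j, ∃ z : A, algebraMap A F b * S i j = algebraMap A F z := by
    intro i j
    obtain ⟨z, hz⟩ := hb (S i j) (Finset.mem_image.mpr ⟨(i, j), Finset.mem_univ _, rfl⟩)
    exact ⟨z, by rw [hz, Algebra.smul_def]⟩
  choose g hg using hint
  have hb0 : algebraMap A F b ≠ 0 := (IsLocalization.map_units F b).ne_zero
  refine ⟨Matrix.of g, 1, algebraMap A F b, by simp, hb0, ?_⟩
  ext i j
  simp only [Matrix.map_apply, Matrix.add_apply, Matrix.transpose_apply, Matrix.of_apply,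
    Matrix.transpose_one, Matrix.one_mul, Matrix.mul_one, Matrix.smul_apply, smul_eq_mul, map_add]
  rw [← hg, ← hg]
  ring

omit [IsDomain A] [IsFractionRing A F] in
theorem map_det' (Q : Matrix (Fin n) (Fin n) A) :
    (Q.map (algebraMap A F)).det = algebraMap A F Q.det := by
  have := (algebraMap A F).map_det Q
  simpa [RingHom.mapMatrix_apply] using this.symm

theorem det_transform {R : Type*} [CommRing R] (G M : Matrix (Fin n) (Fin n) R) (c : R) :
    (c • (Mᵀ * G * M)).det = c ^ n * M.det ^ 2 * G.det := by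
  rw [Matrix.det_smul, Matrix.det_mul, Matrix.det_mul, Matrix.det_transpose, Fintype.card_fin]
  ring

omit [IsDomain A] [IsFractionRing A F] in
theorem Rep.det_ne_zero {S : Matrix (Fin n) (Fin n) F} {Q : Matrix (Fin n) (Fin n) A}
    (h : Rep S Q) (hS : (S + Sᵀ).det ≠ 0) : (Q + Qᵀ).det ≠ 0 := by
  obtain ⟨M, c, hM, hc, h⟩ := h
  intro h0
  have h1 := congrArg Matrix.det h
  rw [map_det', det_transform, h0, map_zero] at h1
  have h2 : c ^ n * M.det ^ 2 * (S + Sᵀ).det ≠ 0 :=
    mul_ne_zero (mul_ne_zero (pow_ne_zero _ hc) (pow_ne_zero _ hM)) hS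
  exact h2 h1.symm

omit [IsDomain A] [IsFractionRing A F] in
theorem Rep.trans {S : Matrix (Fin n) (Fin n) F} {Q Q' : Matrix (Fin n) (Fin n) A}
    (h : Rep S Q) {M' : Matrix (Fin n) (Fin n) F} {c' : F} (hM' : M'.det ≠ 0) (hc' : c' ≠ 0)
    (h' : (Q' + Q'ᵀ).map (algebraMap A F) =
      c' • (M'ᵀ * (Q + Qᵀ).map (algebraMap A F) * M')) : Rep S Q' := by
  obtain ⟨M, c, hM, hc, h⟩ := h
  refine ⟨M * M', c' * c, by rw [Matrix.det_mul]; exact mul_ne_zero hM hM',
    mul_ne_zero hc' hc, ?_⟩
  rw [h', h, Matrix.transpose_mul]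
  simp only [Matrix.mul_smul, Matrix.smul_mul, smul_smul, Matrix.mul_assoc]

end Rep

section DVR

variable {n : ℕ} {A : Type*} [CommRing A] [IsDomain A] [IsDiscreteValuationRing A]
  {F : Type*} [Field F] [Algebra A F] [IsFractionRing A F]

open IsDiscreteValuationRing

/-- Minimality of the discriminant among all representatives. -/
def Minimal (S : Matrix (Fin n) (Fin n) F) (Q : Matrix (Fin n) (Fin n) A) : Prop :=
  Rep S Q ∧ ∀ Q' : Matrix (Fin n) (Fin n) A, Rep S Q' →
    addVal A (Q + Qᵀ).det ≤ addVal A (Q' + Q'ᵀ).det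

theorem exists_minimal (S : Matrix (Fin n) (Fin n) F) :
    ∃ Q : Matrix (Fin n) (Fin n) A, Minimal S Q := by
  let T : Set (Matrix (Fin n) (Fin n) A) := {Q | Rep S Q}
  have hT : T.Nonempty := exists_rep S
  have hwf : WellFounded (InvImage (· < ·)
      (fun Q : Matrix (Fin n) (Fin n) A => addVal A (Q + Qᵀ).det)) := InvImage.wf _ wellFounded_lt
  obtain ⟨Q, hQ, hmin⟩ := hwf.has_min T hT
  exact ⟨Q, hQ, fun Q' hQ' => not_lt.mp (hmin Q' hQ')⟩

variable {S : Matrix (Fin n) (Fin n) F} {Q : Matrix (Fin n) (Fin n) A}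

/-- The numerical consequence of minimality. -/
theorem Minimal.not_transform (h : Minimal S Q) (hS : (S + Sᵀ).det ≠ 0)
    (M : Matrix (Fin n) (Fin n) F) (c : F) (hM : M.det ≠ 0) (hc : c ≠ 0)
    (hint : ∀ x : Fin n → A, ∃ z : A,
      c * qf Q (M.mulVec fun i => algebraMap A F (x i)) = algebraMap A F z)
    (a b : A) (hab : c ^ n * M.det ^ 2 * algebraMap A F a = algebraMap A F b) :
    ¬ (addVal A b < addVal A a) := by
  intro hlt
  obtain ⟨Q', hQ'⟩ := exists_transform Q M c hint
  have hrep := h.1.trans hM hc hQ'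
  have hmin := h.2 Q' hrep
  have hdet := congrArg Matrix.det hQ'
  rw [map_det', det_transform, map_det'] at hdet
  have h1 : (Q' + Q'ᵀ).det * a = b * (Q + Qᵀ).det := by
    apply IsFractionRing.injective A F
    rw [map_mul, map_mul, hdet, ← hab]
    ring
  have h2 := congrArg (addVal A) h1
  rw [AddValuation.map_mul, AddValuation.map_mul] at h2
  have h3 : addVal A (Q + Qᵀ).det ≠ ⊤ := by
    rw [Ne, addVal_eq_top_iff]
    exact h.1.det_ne_zero hS
  have h4 : addVal A b + addVal A (Q + Qᵀ).det < addVal A a + addVal A (Q + Qᵀ).det :=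
    WithTop.add_lt_add_right h3 hlt
  rw [← h2, add_comm (addVal A a)] at h4
  exact absurd h4 (not_lt.mpr (add_le_add hmin le_rfl))

omit [IsDomain A] [IsDiscreteValuationRing A] in
theorem residue_qf [IsLocalRing A] (x : Fin n → A) :
    residue A (qf Q x) = qf Q (fun i => residue A (x i)) :=
  map_qf Q (residue A) (fun _ => rfl) x

omit [IsDomain A] [IsDiscreteValuationRing A] in
theorem residue_bf [IsLocalRing A] (x y : Fin n → A) :
    residue A (bf Q x y) = bf Q (fun i => residue A (x i)) (fun i => residue A (y i)) :=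
  map_bf Q (residue A) (fun _ => rfl) x y

omit [IsDomain A] [IsDiscreteValuationRing A] in
theorem bf_mem_of_rad [IsLocalRing A] {v : Fin n → A}
    (hv : (fun i => residue A (v i)) ∈ radSet Q) (y : Fin n → A) :
    bf Q v y ∈ IsLocalRing.maximalIdeal A := by
  rw [← IsLocalRing.residue_eq_zero_iff, residue_bf]
  exact bf_eq_zero_of_rad Q hv.1 _

/-- For a minimal representative, the form is not divisible by `π²` at radical vectors. -/
theorem prim_of_minimal (h : Minimal S Q) (hS : (S + Sᵀ).det ≠ 0) : Prim Q := by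
  intro v hv0 hv hdvd
  obtain ⟨ϖ, hϖ⟩ := exists_irreducible A
  have hm := hϖ.maximalIdeal_eq
  have hϖ0 : algebraMap A F ϖ ≠ 0 :=
    (map_ne_zero_iff _ (IsFractionRing.injective A F)).mpr hϖ.ne_zero
  -- normalize a coordinate
  obtain ⟨j, hj⟩ : ∃ j, residue A (v j) ≠ 0 := by
    by_contra hcon
    push Not at hcon
    exact hv0 (funext hcon)
  have hju : IsUnit (v j) := (residue_ne_zero_iff_isUnit (v j)).mp hj
  obtain ⟨u, hu⟩ := hju.exists_left_inv
  let v' : Fin n → A := u • v
  have hv'j : v' j = 1 := hu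
  have hbv' : ∀ y, ∃ z, bf Q y v' = ϖ * z := by
    intro y
    have h1 := bf_mem_of_rad hv y
    rw [hm, Ideal.mem_span_singleton] at h1
    obtain ⟨z, hz⟩ := h1
    refine ⟨u * z, ?_⟩
    rw [bf_smul_right, bf_comm, hz]; ring
  have hqv' : ∃ z, qf Q v' = ϖ ^ 2 * z := by
    rw [hm, Ideal.span_singleton_pow, Ideal.mem_span_singleton] at hdvd
    obtain ⟨z, hz⟩ := hdvd
    exact ⟨u ^ 2 * z, by rw [qf_smul, hz]; ring⟩
  obtain ⟨a, ha⟩ := hqv'
  let M : Matrix (Fin n) (Fin n) F := (1 : Matrix (Fin n) (Fin n) F).updateCol j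
    (fun k => algebraMap A F (v' k) / algebraMap A F ϖ)
  have hMdet : M.det = 1 / algebraMap A F ϖ := by
    rw [← Matrix.cramer_apply, Matrix.cramer_one]
    show algebraMap A F (v' j) / algebraMap A F ϖ = 1 / algebraMap A F ϖ
    rw [hv'j]; simp
  have hMx : ∀ x : Fin n → A, M.mulVec (fun i => algebraMap A F (x i)) =
      (fun i => algebraMap A F ((x - x j • (Pi.single j 1 : Fin n → A)) i)) +
        (algebraMap A F (x j) / algebraMap A F ϖ) • (fun i => algebraMap A F (v' i)) := by
    intro x
    ext i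
    rw [Matrix.mulVec, dotProduct, ← Finset.add_sum_erase _ _ (Finset.mem_univ j)]
    have h1 : ∀ k ∈ Finset.univ.erase j, M i k * algebraMap A F (x k) =
        (1 : Matrix _ _ F) i k * algebraMap A F (x k) := by
      intro k hk
      rw [show M i k = (1 : Matrix _ _ F) i k from
        Matrix.updateCol_ne (Finset.ne_of_mem_erase hk)]
    rw [Finset.sum_congr rfl h1, show M i j = algebraMap A F (v' i) / algebraMap A F ϖ from
      Matrix.updateCol_self]
    have h2 : ∑ k ∈ Finset.univ.erase j, (1 : Matrix (Fin n) (Fin n) F) i k *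
        algebraMap A F (x k) =
        algebraMap A F (x i) - (1 : Matrix (Fin n) (Fin n) F) i j * algebraMap A F (x j) := by
      have h3 : ∑ k, (1 : Matrix (Fin n) (Fin n) F) i k * algebraMap A F (x k) =
          algebraMap A F (x i) := by
        have := congrFun (Matrix.one_mulVec (fun i => algebraMap A F (x i))) i
        simpa [Matrix.mulVec, dotProduct] using this
      rw [← h3, ← Finset.add_sum_erase _ _ (Finset.mem_univ j)]
      ring
    rw [h2]
    simp only [Pi.add_apply, Pi.sub_apply, Pi.smul_apply, smul_eq_mul, Matrix.one_apply,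
      Pi.single_apply, map_sub, map_mul]
    by_cases hij : i = j
    · simp [hij]; ring
    · simp [hij]; ring
  have hint : ∀ x : Fin n → A, ∃ z : A,
      (1 : F) * qf Q (M.mulVec fun i => algebraMap A F (x i)) = algebraMap A F z := by
    intro x
    set y : Fin n → A := x - x j • (Pi.single j 1 : Fin n → A) with hy
    obtain ⟨b, hb⟩ := hbv' y
    refine ⟨qf Q y + x j ^ 2 * a + x j * b, ?_⟩
    rw [hMx, qf_add, qf_smul, bf_smul_right, ← algebraMap_qf, ← algebraMap_qf, ← algebraMap_bf,
      ha, hb]
    simp only [map_add, map_mul, map_pow]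
    field_simp
    rw [← hy]
  refine h.not_transform hS M 1 (by rw [hMdet]; exact one_div_ne_zero hϖ0) one_ne_zero hint
    (ϖ ^ 2) 1 ?_ ?_
  · rw [hMdet, one_pow, one_mul, map_pow, map_one]
    field_simp
  · rw [addVal_one, AddValuation.map_pow, addVal_uniformizer hϖ]
    decide

/-- The matrix of a basis of the lattice of vectors whose reduction lies in `U`. -/
theorem exists_lattice_matrix (ϖ : A) (hϖ : Irreducible ϖ)
    (U : Submodule (ResidueField A) (Fin n → ResidueField A)) :
    ∃ (M : Matrix (Fin n) (Fin n) A) (u : A), IsUnit u ∧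
      M.det = u * ϖ ^ (n - Module.finrank (ResidueField A) U) ∧
      ∀ x : Fin n → A, (fun i => residue A ((M.mulVec x) i)) ∈ U := by
  classical
  obtain ⟨U', hU'⟩ := exists_isCompl U
  let b1 := Module.finBasis (ResidueField A) U
  let b2 := Module.finBasis (ResidueField A) U'
  let b := (b1.prod b2).map (Submodule.prodEquivOfIsCompl U U' hU')
  have hcard : Fintype.card (Fin (Module.finrank (ResidueField A) U) ⊕
      Fin (Module.finrank (ResidueField A) U')) = Fintype.card (Fin n) := by
    rw [← Module.finrank_eq_card_basis b, Module.finrank_fintype_fun_eq_card]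
  let e := Fintype.equivOfCardEq hcard
  let b' := b.reindex e
  have hsurj : ∀ i j, ∃ a, residue A a = b' j i := fun i j => residue_surjective _
  choose P hP using hsurj
  let Pm : Matrix (Fin n) (Fin n) A := Matrix.of P
  have hPmap : Pm.map (residue A) = (Pi.basisFun (ResidueField A) (Fin n)).toMatrix b' := by
    ext i j
    rw [Matrix.map_apply, Module.Basis.toMatrix_apply, Pi.basisFun_repr]
    exact hP i j
  have hdetu : IsUnit Pm.det := by
    rw [← residue_ne_zero_iff_isUnit, RingHom.map_det, RingHom.mapMatrix_apply, hPmap]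
    have h1 := (Pi.basisFun (ResidueField A) (Fin n)).toMatrix_mul_toMatrix_flip b'
    have h2 := congrArg Matrix.det h1
    rw [Matrix.det_mul, Matrix.det_one] at h2
    exact left_ne_zero_of_mul_eq_one h2
  let δ : Fin n → A := fun j => Sum.elim (fun _ => 1) (fun _ => ϖ) (e.symm j)
  refine ⟨Pm * Matrix.diagonal δ, Pm.det, hdetu, ?_, ?_⟩
  · rw [Matrix.det_mul, Matrix.det_diagonal]
    congr 1
    have h1 : ∏ j, δ j = ∏ x, Sum.elim (fun _ : Fin (Module.finrank (ResidueField A) U) => (1 : A))
        (fun _ : Fin (Module.finrank (ResidueField A) U') => ϖ) x :=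
      Fintype.prod_equiv e.symm _ _ (fun j => rfl)
    rw [h1, Fintype.prod_sum_type]
    simp only [Sum.elim_inl, Sum.elim_inr, Finset.prod_const_one, one_mul, Finset.prod_const,
      Finset.card_univ, Fintype.card_fin]
    congr 1
    have h2 := Submodule.finrank_add_eq_of_isCompl hU'
    rw [Module.finrank_fintype_fun_eq_card, Fintype.card_fin] at h2
    omega
  · intro x
    have h1 : (fun i => residue A (((Pm * Matrix.diagonal δ).mulVec x) i)) =
        ∑ j, residue A (δ j * x j) • b' j := by
      ext i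
      rw [← Matrix.mulVec_mulVec, Matrix.mulVec, dotProduct, map_sum, Finset.sum_apply]
      refine Finset.sum_congr rfl fun j _ => ?_
      rw [map_mul, Matrix.mulVec_diagonal, Pi.smul_apply, smul_eq_mul, mul_comm]
      congr 1
      exact hP i j
    rw [h1]
    refine U.sum_mem fun j _ => ?_
    rcases hj : e.symm j with a | a
    · refine U.smul_mem _ ?_
      have h2 : b' j = b1 a := by
        show (b.reindex e) j = _
        rw [Module.Basis.reindex_apply, hj]
        simp [b]
      rw [h2]
      exact (b1 a).2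
    · have h2 : residue A (δ j * x j) = 0 := by
        have h3 : δ j = ϖ := by
          show Sum.elim _ _ (e.symm j) = _
          rw [hj]; rfl
        rw [h3, residue_eq_zero_iff]
        exact Ideal.mul_mem_right _ _ (by
          rw [hϖ.maximalIdeal_eq]; exact Ideal.mem_span_singleton_self ϖ)
      rw [h2, zero_smul]
      exact U.zero_mem

/-- For a minimal representative in an odd number of variables, every totally singular subspace
of the reduction has dimension at most half the number of variables. -/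
theorem small_singular_of_minimal (h : Minimal S Q) (hS : (S + Sᵀ).det ≠ 0)
    (U : Submodule (ResidueField A) (Fin n → ResidueField A)) (hU : ∀ u ∈ U, qf Q u = 0) :
    2 * Module.finrank (ResidueField A) U ≤ n := by
  by_contra hcon
  push Not at hcon
  obtain ⟨ϖ, hϖ⟩ := exists_irreducible A
  have hϖ0 : algebraMap A F ϖ ≠ 0 :=
    (map_ne_zero_iff _ (IsFractionRing.injective A F)).mpr hϖ.ne_zero
  obtain ⟨M, u, hu, hMdet, hM⟩ := exists_lattice_matrix ϖ hϖ U
  have hint : ∀ x : Fin n → A, ∃ z : A, (1 / algebraMap A F ϖ) *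
      qf Q ((M.map (algebraMap A F)).mulVec fun i => algebraMap A F (x i)) =
        algebraMap A F z := by
    intro x
    have h1 : (M.map (algebraMap A F)).mulVec (fun i => algebraMap A F (x i)) =
        fun i => algebraMap A F (M.mulVec x i) := by
      ext i
      simp [Matrix.mulVec, dotProduct]
    rw [h1, ← algebraMap_qf]
    have h2 : qf Q (M.mulVec x) ∈ IsLocalRing.maximalIdeal A := by
      rw [← residue_eq_zero_iff, residue_qf]
      exact hU _ (hM x)
    rw [hϖ.maximalIdeal_eq, Ideal.mem_span_singleton] at h2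
    obtain ⟨z, hz⟩ := h2
    refine ⟨z, ?_⟩
    rw [hz, map_mul]
    field_simp
  have hle : Module.finrank (ResidueField A) U ≤ n := by
    have := Submodule.finrank_le U
    rwa [Module.finrank_fintype_fun_eq_card, Fintype.card_fin] at this
  have hMF : (M.map (algebraMap A F)).det = algebraMap A F (u * ϖ ^
      (n - Module.finrank (ResidueField A) U)) := by
    rw [map_det', hMdet]
  refine h.not_transform hS (M.map (algebraMap A F)) (1 / algebraMap A F ϖ) ?_
    (one_div_ne_zero hϖ0) hint (ϖ ^ n)
    (u ^ 2 * ϖ ^ (2 * (n - Module.finrank (ResidueField A) U))) ?_ ?_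
  · rw [hMF, map_mul, map_pow]
    exact mul_ne_zero ((hu.map (algebraMap A F)).ne_zero) (pow_ne_zero _ hϖ0)
  · rw [hMF, map_pow, map_mul, map_mul, map_pow, map_pow, map_pow, pow_mul', mul_pow, one_div,
      inv_pow]
    field_simp
  · rw [AddValuation.map_mul, AddValuation.map_pow, AddValuation.map_pow, AddValuation.map_pow,
      addVal_uniformizer hϖ, addVal_eq_zero_iff.mpr hu]
    simp only [smul_zero, zero_add, nsmul_eq_mul, mul_one]
    exact_mod_cast (by omega : 2 * (n - Module.finrank (ResidueField A) U) < n)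

/-- **Existence of good integral models.** -/
theorem exists_good [Finite (ResidueField A)] (hn : Odd n) (S : Matrix (Fin n) (Fin n) F)
    (hS : (S + Sᵀ).det ≠ 0) :
    ∃ Q : Matrix (Fin n) (Fin n) A, Rep S Q ∧ (Q + Qᵀ).det ≠ 0 ∧ Good Q := by
  obtain ⟨Q, hQ⟩ := exists_minimal (A := A) S
  refine ⟨Q, hQ.1, hQ.1.det_ne_zero hS, ⟨fun w hw hw0 w' hw' => ?_, prim_of_minimal hQ hS⟩⟩
  by_contra hcon
  push Not at hcon
  obtain ⟨U, hU, hlt⟩ := exists_large_singular Q (by simpa using hn) w w' hw hw0 hw' hcon
  have := small_singular_of_minimal hQ hS U hU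
  rw [Fintype.card_fin] at hlt
  omega

end DVR

end Pool.Agent.H19.NF
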