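import Pool.Agent.H19.NF.Charts

set_option autoImplicit false

namespace Pool.Agent.H19.NF

section Dominate

variable {K : Type*} [Field K]

theorem mem_ofPrime_iff (C : Subring K) (P : Ideal C) [P.IsPrime] (x : K) :
    x ∈ (LocalSubring.ofPrime C P).toSubring ↔ ∃ a s : C, s ∉ P ∧ x = (a : K) / (s : K) := by
  constructor
  · intro hx
    obtain ⟨⟨a, s⟩, has⟩ := IsLocalization.surj P.primeCompl
      (⟨x, hx⟩ : (LocalSubring.ofPrime C P).toSubring)
    refine ⟨a, s, s.2, ?_⟩
    have h1 : x * ((s : C) : K) = (a : K) := congrArg Subtype.val has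
    have h2 : ((s : C) : K) ≠ 0 := by
      intro h3
      have : (s : C) = 0 := Subtype.ext h3
      exact s.2 (by rw [this]; exact P.zero_mem)
    rw [eq_div_iff h2, h1]
  · rintro ⟨a, s, hs, rfl⟩
    have h1 := IsLocalization.map_units (LocalSubring.ofPrime C P).toSubring
      (⟨s, hs⟩ : P.primeCompl)
    obtain ⟨v, hv⟩ := h1.exists_right_inv
    have h2 : (s : K) * (v : K) = 1 := congrArg Subtype.val hv
    have h3 : (s : K) ≠ 0 := left_ne_zero_of_mul_eq_one h2
    have h4 : (s : K)⁻¹ = v := by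
      rw [inv_eq_iff_eq_inv]
      exact eq_inv_of_mul_eq_one_left h2
    rw [div_eq_mul_inv, h4]
    exact Subring.mul_mem _ (LocalSubring.le_ofPrime C P a.2) v.2

theorem div_mem_ofPrime (C : Subring K) (P : Ideal C) [P.IsPrime] {x y : K} (hx : x ∈ C)
    (hy : y ∈ C) (hyP : (⟨y, hy⟩ : C) ∉ P) :
    x / y ∈ (LocalSubring.ofPrime C P).toSubring :=
  (mem_ofPrime_iff C P _).mpr ⟨⟨x, hx⟩, ⟨y, hy⟩, hyP, rfl⟩

/-- Let `P` be a prime ideal of a subring `C` of a field and let `B` be a regular subring inside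
of the local ring of `C` at `P`, such that the elements of `C` are fractions of elements of `B`
with denominators invertible in the local ring. Then the local ring is regular. -/
theorem isRegularLocalRing_of_dominate (C B : Subring K) (P : Ideal C) [P.IsPrime]
    (hB : IsRegularRing B) (h1 : B ≤ (LocalSubring.ofPrime C P).toSubring)
    (h2 : ∀ c ∈ C, ∃ b' ∈ B, b' ≠ 0 ∧ b'⁻¹ ∈ (LocalSubring.ofPrime C P).toSubring ∧
      c * b' ∈ B) :
    IsRegularLocalRing (Localization.AtPrime P) := by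
  set R := (LocalSubring.ofPrime C P).toSubring with hR
  have hRloc : IsLocalRing R := (LocalSubring.ofPrime C P).isLocalRing
  let P' : Ideal B := (IsLocalRing.maximalIdeal R).comap (Subring.inclusion h1)
  have hP' : P'.IsPrime := Ideal.comap_isPrime _ _
  have hnot : ∀ b : B, (b : K) ≠ 0 → (b : K)⁻¹ ∈ R → b ∉ P' := by
    intro b hb0 hb hbP
    have h3 : Subring.inclusion h1 b ∈ IsLocalRing.maximalIdeal R := hbP
    rw [IsLocalRing.mem_maximalIdeal, mem_nonunits_iff] at h3
    apply h3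
    refine IsUnit.of_mul_eq_one ⟨(b : K)⁻¹, hb⟩ ?_
    apply Subtype.ext
    exact mul_inv_cancel₀ hb0
  have hinv : ∀ b : B, b ∉ P' → (b : K) ≠ 0 ∧ (b : K)⁻¹ ∈ R := by
    intro b hb
    have h3 : IsUnit (Subring.inclusion h1 b) := by
      by_contra h4
      exact hb h4
    obtain ⟨v, hv⟩ := h3.exists_right_inv
    have h4 : (b : K) * (v : K) = 1 := congrArg Subtype.val hv
    refine ⟨left_ne_zero_of_mul_eq_one h4, ?_⟩
    have h5 : (b : K)⁻¹ = v := by
      rw [inv_eq_iff_eq_inv]
      exact eq_inv_of_mul_eq_one_left h4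
    rw [h5]; exact v.2
  have hEq : (LocalSubring.ofPrime B P').toSubring = R := by
    apply le_antisymm
    · intro x hx
      rw [mem_ofPrime_iff] at hx
      obtain ⟨a, s, hs, rfl⟩ := hx
      rw [div_eq_mul_inv]
      exact R.mul_mem (h1 a.2) (hinv s hs).2
    · intro x hx
      rw [hR, mem_ofPrime_iff] at hx
      obtain ⟨a, s, hs, rfl⟩ := hx
      obtain ⟨b1, hb1, hb10, hb1R, hb1B⟩ := h2 a a.2
      obtain ⟨b2, hb2, hb20, hb2R, hb2B⟩ := h2 s s.2
      have hs0 : (s : K) ≠ 0 := by
        intro h3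
        have : s = 0 := Subtype.ext h3
        exact hs (by rw [this]; exact P.zero_mem)
      have hsR : (s : K)⁻¹ ∈ R := by
        rw [← one_div]
        exact div_mem_ofPrime C P C.one_mem s.2 hs
      rw [mem_ofPrime_iff]
      refine ⟨⟨a * b1 * b2, B.mul_mem hb1B hb2⟩, ⟨b1 * (s * b2), B.mul_mem hb1 hb2B⟩, ?_, ?_⟩
      · apply hnot
        · exact mul_ne_zero hb10 (mul_ne_zero hs0 hb20)
        · show (b1 * (s * b2))⁻¹ ∈ R
          rw [mul_inv, mul_inv]
          exact R.mul_mem hb1R (R.mul_mem hsR hb2R)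
      · show (a : K) / s = (a * b1 * b2) / (b1 * (s * b2))
        field_simp
  have h3 : IsRegularLocalRing (Localization.AtPrime P') := isRegularRing_iff.mp hB P'
  have e : Localization.AtPrime P' ≃+* Localization.AtPrime P :=
    (LocalSubring.ofPrimeEquiv B P').toRingEquiv.trans
      ((RingEquiv.subringCongr hEq).trans (LocalSubring.ofPrimeEquiv C P).symm.toRingEquiv)
  exact IsRegularLocalRing.of_ringEquiv e

end Dominate

section LocGlob

variable {K : Type} [Field K] {O : Type} [CommRing O] [Algebra O K]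

/-- Regularity of a chart ring can be checked locally on the base. -/
theorem isRegularRing_of_local (hOK : Function.Injective (algebraMap O K))
    (C : Subring K) [IsNoetherianRing C] (V : Submodule O K) (u : K) (hu : u ∈ V) (hu0 : u ≠ 0)
    (hC1 : ∀ v ∈ V, v / u ∈ C) (hC2 : C ≤ Subring.closure {x | ∃ v ∈ V, x = v / u})
    (hloc : ∀ 𝔮 : Ideal O, 𝔮.IsMaximal → ∃ (A : Type) (_ : CommRing A) (_ : Algebra A K)
      (J : Type) (h : J → K),
        (∀ a : A, ∃ x y : O, y ∉ 𝔮 ∧ algebraMap A K a * algebraMap O K y = algebraMap O K x) ∧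
        (∀ j, ∃ y ∉ 𝔮, y • h j ∈ V) ∧
        (∀ v ∈ V, v ∈ Submodule.span A (Set.range h)) ∧
        (∀ j, h j ≠ 0 → IsRegularRing (cAlg A h j))) :
    IsRegularRing C := by
  rw [isRegularRing_iff]
  intro P hP
  set R := (LocalSubring.ofPrime C P).toSubring with hR
  have hRloc : IsLocalRing R := (LocalSubring.ofPrime C P).isLocalRing
  have hCR : C ≤ R := LocalSubring.le_ofPrime C P
  have hOC : ∀ a : O, algebraMap O K a ∈ C := by
    intro a
    have h1 := hC1 _ (V.smul_mem a hu)
    rwa [Algebra.smul_def, mul_div_assoc, div_self hu0, mul_one] at h1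
  let fO : O →+* C := (algebraMap O K).codRestrict C hOC
  let 𝔭 : Ideal O := P.comap fO
  have h𝔭 : 𝔭.IsPrime := Ideal.comap_isPrime _ _
  obtain ⟨𝔮, h𝔮, h𝔭𝔮⟩ := Ideal.exists_le_maximal 𝔭 h𝔭.ne_top
  obtain ⟨A, _, _, J, h, hA, hh, hV, hreg⟩ := hloc 𝔮 h𝔮
  -- denominators
  have hden : ∀ (z : K) (y : O), y ∉ 𝔮 → z * algebraMap O K y ∈ C → z ∈ R := by
    intro z y hy hz
    have hy0 : algebraMap O K y ≠ 0 := by
      intro h1
      rw [map_eq_zero_iff _ hOK] at h1
      exact hy (h1 ▸ 𝔮.zero_mem)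
    have h2 : z = (z * algebraMap O K y) / algebraMap O K y := by
      field_simp
    rw [h2]
    refine div_mem_ofPrime C P hz (hOC y) ?_
    intro h3
    exact hy (h𝔭𝔮 h3)
  have hAR : ∀ a : A, algebraMap A K a ∈ R := by
    intro a
    obtain ⟨x, y, hy, hxy⟩ := hA a
    exact hden _ y hy (by rw [hxy]; exact hOC x)
  have hhR : ∀ j, h j / u ∈ R := by
    intro j
    obtain ⟨y, hy, hyV⟩ := hh j
    refine hden _ y hy ?_
    have h1 := hC1 _ hyV
    rw [Algebra.smul_def] at h1
    convert h1 using 1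
    ring
  -- some `h j / u` is a unit
  obtain ⟨j, hj⟩ : ∃ j, (⟨h j / u, hhR j⟩ : R) ∉ IsLocalRing.maximalIdeal R := by
    by_contra hcon
    push Not at hcon
    have h1 : ∀ v ∈ Submodule.span A (Set.range h),
        ∃ hv : v / u ∈ R, (⟨v / u, hv⟩ : R) ∈ IsLocalRing.maximalIdeal R := by
      intro v hv
      induction hv using Submodule.span_induction with
      | mem x hx =>
        obtain ⟨j, rfl⟩ := hx
        exact ⟨hhR j, hcon j⟩
      | zero =>
        have h2 : (0 : K) / u ∈ R := by rw [zero_div]; exact R.zero_mem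
        refine ⟨h2, ?_⟩
        have h3 : (⟨0 / u, h2⟩ : R) = 0 := Subtype.ext (zero_div u)
        rw [h3]; exact Ideal.zero_mem _
      | add x y _ _ hx hy =>
        obtain ⟨hx1, hx2⟩ := hx
        obtain ⟨hy1, hy2⟩ := hy
        have h2 : (x + y) / u ∈ R := by rw [add_div]; exact R.add_mem hx1 hy1
        refine ⟨h2, ?_⟩
        have h3 : (⟨(x + y) / u, h2⟩ : R) = ⟨x / u, hx1⟩ + ⟨y / u, hy1⟩ :=
          Subtype.ext (add_div x y u)
        rw [h3]; exact Ideal.add_mem _ hx2 hy2
      | smul a x _ hx =>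
        obtain ⟨hx1, hx2⟩ := hx
        have h4 : (a • x) / u = algebraMap A K a * (x / u) := by
          rw [Algebra.smul_def, mul_div_assoc]
        have h2 : (a • x) / u ∈ R := by rw [h4]; exact R.mul_mem (hAR a) hx1
        refine ⟨h2, ?_⟩
        have h3 : (⟨(a • x) / u, h2⟩ : R) = ⟨algebraMap A K a, hAR a⟩ * ⟨x / u, hx1⟩ :=
          Subtype.ext h4
        rw [h3]; exact Ideal.mul_mem_left _ _ hx2
    obtain ⟨h2, h3⟩ := h1 u (hV u hu)
    have h4 : (⟨u / u, h2⟩ : R) = 1 := Subtype.ext (div_self hu0)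
    rw [h4] at h3
    exact (Ideal.ne_top_iff_one _).mp (IsLocalRing.maximalIdeal.isMaximal R).ne_top h3
  have hjunit : IsUnit (⟨h j / u, hhR j⟩ : R) := by
    by_contra h1
    exact hj h1
  obtain ⟨w, hw⟩ := hjunit.exists_right_inv
  have hw' : h j / u * (w : K) = 1 := congrArg Subtype.val hw
  have hj0 : h j ≠ 0 := by
    intro h1
    rw [h1, zero_div, zero_mul] at hw'
    exact zero_ne_one hw'
  have huR : u / h j ∈ R := by
    have h1 : u / h j = w := by
      field_simp at hw' ⊢
      exact hw'.symm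
    rw [h1]; exact w.2
  set B : Subring K := (cAlg A h j).toSubring with hB
  have hBreg : IsRegularRing B := hreg j hj0
  have hBR : B ≤ R := by
    rw [hB, cAlg, Algebra.adjoin_eq_ring_closure, Subring.closure_le]
    rintro _ (⟨a, rfl⟩ | ⟨i, rfl⟩)
    · exact hAR a
    · have h1 : h i / h j = (h i / u) * (u / h j) := by field_simp
      show h i / h j ∈ R
      rw [h1]
      exact R.mul_mem (hhR i) huR
  have hVB : ∀ v ∈ V, v / h j ∈ B := by
    intro v hv
    have h1 := hV v hv
    clear hv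
    induction h1 using Submodule.span_induction with
    | mem x hx =>
      obtain ⟨i, rfl⟩ := hx
      exact Algebra.subset_adjoin ⟨i, rfl⟩
    | zero => rw [zero_div]; exact B.zero_mem
    | add x y _ _ hx hy => rw [add_div]; exact B.add_mem hx hy
    | smul a x _ hx =>
      rw [Algebra.smul_def, mul_div_assoc]
      exact B.mul_mem (Subalgebra.algebraMap_mem _ a) hx
  set t : K := u / h j with ht
  have htB : t ∈ B := hVB u hu
  have ht0 : t ≠ 0 := div_ne_zero hu0 hj0
  have htinv : t⁻¹ ∈ R := by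
    rw [ht, inv_div]; exact hhR j
  refine isRegularLocalRing_of_dominate C B P hBreg hBR ?_
  intro c hc
  have h1 : ∃ n : ℕ, c * t ^ n ∈ B := by
    have h2 := hC2 hc
    clear hc
    induction h2 using Subring.closure_induction with
    | mem x hx =>
      obtain ⟨v, hv, rfl⟩ := hx
      refine ⟨1, ?_⟩
      have : v / u * t ^ 1 = v / h j := by
        rw [ht]; field_simp
      rw [this]; exact hVB v hv
    | zero => exact ⟨0, by rw [zero_mul]; exact B.zero_mem⟩
    | one => exact ⟨0, by rw [pow_zero, mul_one]; exact B.one_mem⟩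
    | add x y _ _ hx hy =>
      obtain ⟨n, hn⟩ := hx
      obtain ⟨n', hn'⟩ := hy
      refine ⟨n + n', ?_⟩
      have : (x + y) * t ^ (n + n') = (x * t ^ n) * t ^ n' + (y * t ^ n') * t ^ n := by
        rw [pow_add]; ring
      rw [this]
      exact B.add_mem (B.mul_mem hn (B.pow_mem htB _)) (B.mul_mem hn' (B.pow_mem htB _))
    | neg x _ hx =>
      obtain ⟨n, hn⟩ := hx
      exact ⟨n, by rw [neg_mul]; exact B.neg_mem hn⟩
    | mul x y _ _ hx hy =>
      obtain ⟨n, hn⟩ := hx
      obtain ⟨n', hn'⟩ := hy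
      refine ⟨n + n', ?_⟩
      have : (x * y) * t ^ (n + n') = (x * t ^ n) * (y * t ^ n') := by
        rw [pow_add]; ring
      rw [this]
      exact B.mul_mem hn hn'
  obtain ⟨n, hn⟩ := h1
  refine ⟨t ^ n, B.pow_mem htB n, pow_ne_zero n ht0, ?_, hn⟩
  rw [← inv_pow]
  exact R.pow_mem htinv n

end LocGlob

end Pool.Agent.H19.NF
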