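import Pool.Agent.H19.NF.NumField

set_option autoImplicit false

namespace Pool.Agent.H19.NF

open Matrix NumberField

/-- The maximal minors of a product are linear combinations of the maximal minors. -/
theorem det_mul_mem_span {F K : Type*} [Field F] [Field K] [Algebra F K] {k N : ℕ}
    (W : Matrix (Fin k) (Fin N) K) (B : Matrix (Fin N) (Fin N) F) (J : Fin k → Fin N) :
    ((W * B.map (algebraMap F K)).submatrix id J).det ∈
      Submodule.span F (Set.range fun I : Fin k → Fin N => (W.submatrix id I).det) := by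
  have h1 : ((W * B.map (algebraMap F K)).submatrix id J).det =
      ∑ r : Fin k → Fin N, (∏ j, B (r j) (J j)) • (W.submatrix id r).det := by
    rw [← Matrix.det_transpose]
    have h2 : ((W * B.map (algebraMap F K)).submatrix id J)ᵀ =
        fun j => ∑ c, algebraMap F K (B c (J j)) • (fun i => W i c) := by
      ext j i
      rw [Matrix.transpose_apply, Matrix.submatrix_apply, Matrix.mul_apply, Finset.sum_apply]
      refine Finset.sum_congr rfl fun c _ => ?_
      rw [Pi.smul_apply, smul_eq_mul, Matrix.map_apply, id, mul_comm]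
    have h3 := (Matrix.detRowAlternating (R := K) (n := Fin k)).toMultilinearMap.map_sum
      (fun j c => algebraMap F K (B c (J j)) • (fun i => W i c))
    have h4 : ((W * B.map (algebraMap F K)).submatrix id J)ᵀ.det =
        (Matrix.detRowAlternating (R := K) (n := Fin k)).toMultilinearMap
          (fun j => ∑ c, algebraMap F K (B c (J j)) • (fun i => W i c)) := by
      rw [h2]; rfl
    rw [h4, h3]
    refine Finset.sum_congr rfl fun r _ => ?_
    rw [MultilinearMap.map_smul_univ, ← map_prod, algebraMap_smul]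
    congr 1
    rw [← Matrix.det_transpose (W.submatrix id r)]
    rfl
  rw [h1]
  exact Submodule.sum_mem _ fun r _ => Submodule.smul_mem _ _ (Submodule.subset_span ⟨r, rfl⟩)

/-- A quadratic form with unit discriminant over a local ring is good. -/
theorem good_of_isUnit {A : Type*} [CommRing A] [IsLocalRing A] {N : ℕ}
    (Q : Matrix (Fin N) (Fin N) A) (hQ : IsUnit (Q + Qᵀ).det) : Good Q := by
  have h0 : ∀ w ∈ radSet Q, w = 0 := by
    intro w hw
    ext i
    have h1 := det_mul_eq_zero Q w hw.1 i
    have h2 : algebraMap A (IsLocalRing.ResidueField A) (Q + Qᵀ).det ≠ 0 :=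
      (hQ.map _).ne_zero
    exact (mul_eq_zero.mp h1).resolve_left h2
  exact ⟨fun w hw hw0 => absurd (h0 w hw) hw0, fun v hv0 hv => absurd (h0 _ hv) hv0⟩

variable {F : Type} [Field F] {k m : ℕ} {S : Matrix (Fin (k + m)) (Fin (k + m)) F}
  {K : Type} [Field K] [Algebra (CRing S) K]

theorem gcoord_one (J : Fin k → Fin (k + m)) :
    gcoord S K 1 J = ((UK S K).submatrix id J).det := by
  rw [gcoord, WK, inv_one, Matrix.map_one _ (map_zero _) (map_one _), Matrix.transpose_one,
    Matrix.mul_one]

/-- A subfield containing the base field and the ratios of the Plücker coordinates is everything. -/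
theorem subfield_eq_top [IsFractionRing (CRing S) K] (E : Subfield K)
    (hF : ∀ x : F, rK S K x ∈ E)
    (hE : ∀ i j, gcoord S K 1 i / gcoord S K 1 j ∈ E) : E = ⊤ := by
  rw [eq_top_iff]
  have h1 : gcoord S K 1 (Fin.castAdd m) = 1 := by
    rw [gcoord_one, UK_one, Matrix.det_one]
  have hall : ∀ J, gcoord S K 1 J ∈ E := by
    intro J
    have := hE J (Fin.castAdd m)
    rwa [h1, div_one] at this
  have hU : ∀ i c, UK S K i c ∈ E := by
    intro i c
    have h2 := hall (Function.update (Fin.castAdd m) i c)
    have h3 : gcoord S K 1 (Function.update (Fin.castAdd m) i c) = UK S K i c := by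
      rw [gcoord_one]
      have h4 : (UK S K).submatrix id (Function.update (Fin.castAdd m) i c) =
          (1 : Matrix (Fin k) (Fin k) K).updateCol i (fun a => UK S K a c) := by
        ext a b
        rw [Matrix.submatrix_apply, Matrix.updateCol_apply, id]
        by_cases h : b = i
        · subst h; simp
        · rw [Function.update_of_ne h, if_neg h, ← UK_one S K]
          rfl
      rw [h4, ← Matrix.cramer_apply, Matrix.cramer_one]
      rfl
    rwa [h3] at h2
  have hallf : ∀ f : MvPolynomial (Fin k × Fin m) F,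
      algebraMap (CRing S) K (Ideal.Quotient.mk _ f) ∈ E := by
    intro f
    induction f using MvPolynomial.induction_on with
    | C r => exact hF r
    | add p q hp hq => rw [map_add, map_add]; exact E.add_mem hp hq
    | mul_X p x hp =>
      rw [map_mul, map_mul]
      refine E.mul_mem hp ?_
      have := hU x.1 (Fin.natAdd k x.2)
      rw [UK_apply, urow, Fin.append_right] at this
      exact this
  intro y _
  obtain ⟨a, b, rfl⟩ := IsLocalization.exists_mk'_eq (nonZeroDivisors (CRing S)) y
  obtain ⟨a', rfl⟩ := Ideal.Quotient.mk_surjective a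
  obtain ⟨b', hb'⟩ := Ideal.Quotient.mk_surjective (b : CRing S)
  rw [IsFractionRing.mk'_eq_div, ← hb']
  exact E.div_mem (hallf a') (hallf b')

/-- The spans of the Plücker coordinates do not depend on the coordinate system. -/
theorem span_gcoord [Algebra F K] (hr : ∀ x, algebraMap F K x = rK S K x)
    (M : Matrix (Fin (k + m)) (Fin (k + m)) F) (hM : M.det ≠ 0) :
    Submodule.span F (Set.range (gcoord S K M)) =
      Submodule.span F (Set.range (gcoord S K 1)) := by
  have hr' : rK S K = algebraMap F K := by ext x; exact (hr x).symm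
  have h1 : gcoord S K 1 = fun J => ((UK S K).submatrix id J).det := by
    ext J; exact gcoord_one J
  apply le_antisymm
  · rw [Submodule.span_le]
    rintro _ ⟨J, rfl⟩
    rw [h1, gcoord, WK, hr', ← Matrix.transpose_map]
    exact det_mul_mem_span _ _ _
  · rw [Submodule.span_le]
    rintro _ ⟨J, rfl⟩
    rw [gcoord_one]
    have h2 : UK S K = WK S K M * (Mᵀ).map (algebraMap F K) := by
      rw [Matrix.transpose_map, ← hr', WK_mul S K M hM]
    rw [h2]
    exact det_mul_mem_span _ _ _

/-- The coordinate ring of the isotropic Grassmannian of an odd quadratic form over a number field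
has the property. -/
theorem fracCharts_CRing [NumberField F] (hodd : Odd (k + m))
    (S : Matrix (Fin (k + m)) (Fin (k + m)) F) (hS : S.IsSymm) (hdet : S.det ≠ 0) :
    OG.FracCharts (CRing S) := by
  classical
  intro K _ _ _
  let algFK : Algebra F K := (rK S K).toAlgebra
  have hr : ∀ x : F, algebraMap F K x = rK S K x := fun _ => rfl
  have hS' : (S + S.transpose).det ≠ 0 := by
    rw [hS.eq, ← two_smul F S, Matrix.det_smul]
    exact mul_ne_zero (pow_ne_zero _ two_ne_zero) hdet
  -- the discriminant
  obtain ⟨b, hb⟩ := IsLocalization.exist_integer_multiples_of_finset (nonZeroDivisors (𝓞 F))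
    (Finset.univ.image fun x : Fin (k + m) × Fin (k + m) => S x.1 x.2)
  have hb0 : (b : 𝓞 F) ≠ 0 := nonZeroDivisors.ne_zero b.2
  have hint : ∀ i j, ∃ z : 𝓞 F, algebraMap (𝓞 F) F b * S i j = algebraMap (𝓞 F) F z := by
    intro i j
    obtain ⟨z, hz⟩ := hb (S i j) (Finset.mem_image.mpr ⟨(i, j), Finset.mem_univ _, rfl⟩)
    exact ⟨z, by rw [hz, Algebra.smul_def]⟩
  choose s hs using hint
  set sM : Matrix (Fin (k + m)) (Fin (k + m)) (𝓞 F) := Matrix.of s with hsM
  have hsMap : sM.map (algebraMap (𝓞 F) F) = algebraMap (𝓞 F) F b • S := by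
    ext i j
    rw [Matrix.map_apply, Matrix.smul_apply, smul_eq_mul, hs]
    rfl
  have hDF : algebraMap (𝓞 F) F sM.det = (algebraMap (𝓞 F) F b) ^ (k + m) * S.det := by
    rw [← map_det', hsMap, Matrix.det_smul, Fintype.card_fin]
  have hbF : algebraMap (𝓞 F) F b ≠ 0 := by
    rw [Ne, map_eq_zero_iff _ (IsFractionRing.injective (𝓞 F) F)]; exact hb0
  have hD0 : sM.det ≠ 0 := by
    intro h
    rw [h, map_zero] at hDF
    exact mul_ne_zero (pow_ne_zero _ hbF) hdet hDF.symm
  set d : 𝓞 F := 2 * b * sM.det with hd
  have hd0 : d ≠ 0 := mul_ne_zero (mul_ne_zero two_ne_zero hb0) hD0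
  refine hasCharts_of_charts (F := F) (gcoord S K 1) ?_ d hd0 ?_ ?_ ?_
  · refine ⟨Fin.castAdd m, ?_⟩
    rw [gcoord_one, UK_one, Matrix.det_one]
    exact one_ne_zero
  · intro A _ _ _ _ _ _ _ _ hOA hdA J hJ
    choose ι hι using hOA
    obtain ⟨u, hu, huF⟩ := hdA
    have hAF := IsFractionRing.injective A F
    have hu' : u = 2 * ι b * ι sM.det := by
      apply hAF
      rw [huF, map_mul, map_mul, hι, hι, map_ofNat]
      show algebraMap (𝓞 F) F d = _
      rw [hd, map_mul, map_mul, map_ofNat]
    rw [hu'] at hu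
    have hu2 : IsUnit (2 : A) := isUnit_of_mul_isUnit_left (isUnit_of_mul_isUnit_left hu)
    have hub : IsUnit (ι b) := isUnit_of_mul_isUnit_right (isUnit_of_mul_isUnit_left hu)
    have huD : IsUnit (ι sM.det) := isUnit_of_mul_isUnit_right hu
    obtain ⟨v, hv⟩ := hub.exists_right_inv
    have hvF : algebraMap A F v = (algebraMap (𝓞 F) F b)⁻¹ := by
      have h1 := congrArg (algebraMap A F) hv
      rw [map_mul, hι, map_one] at h1
      exact eq_inv_of_mul_eq_one_right h1
    let Q : Matrix (Fin (k + m)) (Fin (k + m)) A := Matrix.of fun i j => v * ι (s i j)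
    have hQmap : Q.map (algebraMap A F) = S := by
      ext i j
      show algebraMap A F (v * ι (s i j)) = S i j
      rw [map_mul, hvF, hι]
      have h1 : ((s i j : 𝓞 F) : F) = algebraMap (𝓞 F) F b * S i j := (hs i j).symm
      rw [h1, ← mul_assoc, inv_mul_cancel₀ hbF, one_mul]
    have hQrep : (Q + Qᵀ).map (algebraMap A F) = (1 : F) • ((1 : Matrix _ _ F)ᵀ * (S + Sᵀ) * 1) := by
      rw [one_smul, Matrix.transpose_one, Matrix.one_mul, Matrix.mul_one, ← hQmap,
        Matrix.map_add _ (fun a b => map_add _ a b), Matrix.transpose_map]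
    have hQdet : IsUnit (Q + Qᵀ).det := by
      have h1 : (Q + Qᵀ).det = 2 ^ (k + m) * (v ^ (k + m) * ι sM.det) := by
        apply hAF
        rw [← map_det', hQrep, one_smul, Matrix.transpose_one, Matrix.one_mul, Matrix.mul_one,
          hS.eq, ← two_smul F S, Matrix.det_smul, Fintype.card_fin, map_mul, map_pow, map_mul,
          map_pow, hvF, hι]
        have h2 : ((sM.det : 𝓞 F) : F) = (algebraMap (𝓞 F) F b) ^ (k + m) * S.det := hDF
        rw [h2, map_ofNat, inv_pow]
        have h3 := pow_ne_zero (k + m) hbF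
        rw [inv_mul_cancel_left₀ h3]
      rw [h1]
      have hvu : IsUnit v := IsUnit.of_mul_eq_one_right _ hv
      exact (hu2.pow _).mul ((hvu.pow _).mul huD)
    have hAK : ∀ a, rK S K (algebraMap A F a) = algebraMap A K a := fun a =>
      (IsScalarTower.algebraMap_apply A F K a).symm
    exact isRegularRing_cAlg K hAK hS (by rw [Matrix.det_one]; exact one_ne_zero) one_ne_zero
      hQrep hQdet.ne_zero (good_of_isUnit Q hQdet) hJ
  · intro A _ _ _ _ _ _ _ _
    obtain ⟨Q, ⟨M, c, hM, hc, hQ⟩, hQdet, hgood⟩ := exists_good (A := A) hodd S hS'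
    have hAK : ∀ a, rK S K (algebraMap A F a) = algebraMap A K a := fun a =>
      (IsScalarTower.algebraMap_apply A F K a).symm
    exact ⟨_, inferInstance, gcoord S K M, span_gcoord hr M hM, fun J hJ =>
      isRegularRing_cAlg K hAK hS hM hc hQ hQdet hgood hJ⟩
  · exact subfield_eq_top

end Pool.Agent.H19.NF
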