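import Pool.Agent.H19.NF.Latt

set_option autoImplicit false

namespace Pool.Agent.H19.NF

open Matrix

variable {A : Type*} [CommRing A] {F : Type*} [Field F] [Algebra A F] {k N : ℕ}

/-- The polar matrix of `Q` over an `A`-algebra. -/
def pm (Q : Matrix (Fin N) (Fin N) A) (R : Type*) [CommRing R] [Algebra A R] :
    Matrix (Fin N) (Fin N) R :=
  (Q + Qᵀ).map (algebraMap A R)

theorem mul_pm_mul_apply {R : Type*} [CommRing R] [Algebra A R] (Q : Matrix (Fin N) (Fin N) A)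
    (B B' : Matrix (Fin k) (Fin N) R) (i j : Fin k) :
    (B * pm Q R * B'ᵀ) i j = bf Q (B i) (B' j) := by
  rw [bf_eq_dotProduct, Matrix.mul_assoc, Matrix.mul_apply]
  rfl

theorem mul_pm_mul_eq_zero_iff {R : Type*} [CommRing R] [Algebra A R]
    (Q : Matrix (Fin N) (Fin N) A) (B : Matrix (Fin k) (Fin N) R) :
    B * pm Q R * Bᵀ = 0 ↔ ∀ i j, bf Q (B i) (B j) = 0 := by
  constructor
  · intro h i j
    rw [← mul_pm_mul_apply, h, Matrix.zero_apply]
  · intro h
    ext i j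
    rw [mul_pm_mul_apply, h, Matrix.zero_apply]

variable {S : Matrix (Fin N) (Fin N) F} {Q : Matrix (Fin N) (Fin N) A}
  {M : Matrix (Fin N) (Fin N) F} {c : F}

theorem pm_eq (hQ : (Q + Qᵀ).map (algebraMap A F) = c • (Mᵀ * (S + Sᵀ) * M))
    {R : Type*} [CommRing R] [Algebra A R] (r : F →+* R)
    (hr : ∀ a, r (algebraMap A F a) = algebraMap A R a) :
    pm Q R = r c • ((M.map r)ᵀ * (S + Sᵀ).map r * M.map r) := by
  have h1 : pm Q R = ((Q + Qᵀ).map (algebraMap A F)).map r := by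
    ext i j
    simp [pm, hr]
  rw [h1, hQ]
  ext i j
  rw [Matrix.map_apply, Matrix.smul_apply, Matrix.smul_apply, smul_eq_mul, smul_eq_mul, map_mul]
  congr 1
  rw [← Matrix.transpose_map, ← Matrix.map_mul, ← Matrix.map_mul, Matrix.map_apply]

theorem map_mul_inv_map (hM : M.det ≠ 0) {R : Type*} [CommRing R] (r : F →+* R) :
    M.map r * M⁻¹.map r = 1 := by
  rw [← Matrix.map_mul, Matrix.mul_nonsing_inv _ (isUnit_iff_ne_zero.mpr hM)]
  simp

theorem inv_map_mul_map (hM : M.det ≠ 0) {R : Type*} [CommRing R] (r : F →+* R) :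
    M⁻¹.map r * M.map r = 1 := by
  rw [← Matrix.map_mul, Matrix.nonsing_inv_mul _ (isUnit_iff_ne_zero.mpr hM)]
  simp

variable [CharZero F]

/-- From an isotropic matrix for `Q` to one for `S`. -/
theorem mul_sym_mul_eq_zero (hS : Sᵀ = S) (hc : c ≠ 0)
    (hQ : (Q + Qᵀ).map (algebraMap A F) = c • (Mᵀ * (S + Sᵀ) * M))
    {R : Type*} [CommRing R] [Algebra A R] (r : F →+* R)
    (hr : ∀ a, r (algebraMap A F a) = algebraMap A R a) (Z : Matrix (Fin k) (Fin N) R)
    (hZ : ∀ i j, bf Q (Z i) (Z j) = 0) :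
    (Z * (M.map r)ᵀ) * S.map r * (Z * (M.map r)ᵀ)ᵀ = 0 := by
  have h1 := (mul_pm_mul_eq_zero_iff Q Z).mpr hZ
  rw [pm_eq hQ r hr, hS] at h1
  have h2 : (S + S).map r = (r 2) • S.map r := by
    ext i j
    rw [Matrix.map_apply, Matrix.smul_apply, Matrix.add_apply, smul_eq_mul, Matrix.map_apply,
      ← map_mul, two_mul]
  rw [h2, Matrix.mul_smul, Matrix.smul_mul, Matrix.mul_smul, Matrix.smul_mul,
    Matrix.mul_smul, Matrix.smul_mul] at h1
  have h3 : IsUnit (r c) := (isUnit_iff_ne_zero.mpr hc).map r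
  have h4 : IsUnit (r 2) := (isUnit_iff_ne_zero.mpr (two_ne_zero (α := F))).map r
  rw [h3.smul_eq_zero, h4.smul_eq_zero] at h1
  rw [Matrix.transpose_mul, Matrix.transpose_transpose]
  simpa only [Matrix.mul_assoc] using h1

omit [CharZero F] in
/-- From an isotropic matrix for `S` to one for `Q`. -/
theorem bf_eq_zero_of_mul (hS : Sᵀ = S) (hM : M.det ≠ 0)
    (hQ : (Q + Qᵀ).map (algebraMap A F) = c • (Mᵀ * (S + Sᵀ) * M))
    {R : Type*} [CommRing R] [Algebra A R] (r : F →+* R)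
    (hr : ∀ a, r (algebraMap A F a) = algebraMap A R a) (U : Matrix (Fin k) (Fin N) R)
    (hU : U * S.map r * Uᵀ = 0) (i j : Fin k) :
    bf Q ((U * (M⁻¹.map r)ᵀ) i) ((U * (M⁻¹.map r)ᵀ) j) = 0 := by
  revert i j
  rw [← mul_pm_mul_eq_zero_iff]
  rw [pm_eq hQ r hr, hS]
  have h2 : (S + S).map r = (r 2) • S.map r := by
    ext i j
    rw [Matrix.map_apply, Matrix.smul_apply, Matrix.add_apply, smul_eq_mul, Matrix.map_apply,
      ← map_mul, two_mul]
  have h3 : (M⁻¹.map r)ᵀ * (M.map r)ᵀ = 1 := by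
    rw [← Matrix.transpose_mul, map_mul_inv_map hM, Matrix.transpose_one]
  have h4 : M.map r * M⁻¹.map r = 1 := map_mul_inv_map hM r
  have h5 : U * (M⁻¹.map r)ᵀ * (r c • ((M.map r)ᵀ * (S + S).map r * M.map r)) *
      (U * (M⁻¹.map r)ᵀ)ᵀ = (r c * r 2) • (U * ((M⁻¹.map r)ᵀ * (M.map r)ᵀ) * S.map r *
        (M.map r * M⁻¹.map r) * Uᵀ) := by
    rw [h2, Matrix.transpose_mul, Matrix.transpose_transpose]
    simp only [Matrix.mul_smul, Matrix.smul_mul, smul_smul, Matrix.mul_assoc]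
  rw [h5, h3, h4, Matrix.mul_one, Matrix.mul_one, hU, smul_zero]

theorem qf_eq_zero_of_bf {R : Type*} [CommRing R] [IsDomain R] [CharZero R] [Algebra A R]
    {x : Fin N → R} (h : bf Q x x = 0) : qf Q x = 0 := by
  rw [bf_self] at h
  rcases mul_eq_zero.mp h with h1 | h1
  · exact absurd h1 two_ne_zero
  · exact h1

end Pool.Agent.H19.NF
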