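import Pool.Agent.H19.NF.LocGlob
import Pool.Agent.H19.OG.P2

set_option autoImplicit false

namespace Pool.Agent.H19.NF

open Pool.Agent.H97

variable {K : Type} [Field K] {O : Type} [CommRing O] [Algebra O K]

/-- A regular projective model over the integers from local data over a finite base ring `O`. -/
theorem hasCharts_of_local [Module.Finite ℤ O] (hOK : Function.Injective (algebraMap O K))
    (V : Submodule O K) (hfg : V.FG) (hV0 : V ≠ ⊥)
    (hloc : ∀ 𝔮 : Ideal O, 𝔮.IsMaximal → ∃ (A : Type) (_ : CommRing A) (_ : Algebra A K)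
      (J : Type) (h : J → K),
        (∀ a : A, ∃ x y : O, y ∉ 𝔮 ∧ algebraMap A K a * algebraMap O K y = algebraMap O K x) ∧
        (∀ j, ∃ y ∉ 𝔮, y • h j ∈ V) ∧
        (∀ v ∈ V, v ∈ Submodule.span A (Set.range h)) ∧
        (∀ j, h j ≠ 0 → IsRegularRing (cAlg A h j)))
    (hfrac : ∀ E : Subfield K, (∀ v ∈ V, ∀ u ∈ V, v / u ∈ E) → E = ⊤) : OG.HasCharts K := by
  classical
  have hfgZ : (V.restrictScalars ℤ).FG := hfg.restrictScalars
  obtain ⟨s, hs⟩ := hfgZ
  have hsV : ∀ x ∈ s, x ∈ V := by
    intro x hx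
    have h1 : x ∈ V.restrictScalars ℤ := by
      rw [← hs]; exact Submodule.subset_span hx
    exact h1
  have hVs : ∀ v ∈ V, v ∈ Submodule.span ℤ (s : Set K) := by
    intro v hv
    rw [hs]; exact hv
  let ι : Type := {x : K // x ∈ s ∧ x ≠ 0}
  have hfin : Finite ι := by
    have : Finite {x : K // x ∈ s} := inferInstance
    exact Finite.of_injective (fun x : ι => (⟨x.1, x.2.1⟩ : {x : K // x ∈ s}))
      (fun x y hxy => Subtype.ext (congrArg (fun z : {x : K // x ∈ s} => z.1) hxy))
  let g : ι → K := fun x => x.1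
  have hg : ∀ i, g i ≠ 0 := fun i => i.2.2
  have hne : ∃ x ∈ s, x ≠ 0 := by
    by_contra hcon
    push Not at hcon
    apply hV0
    rw [eq_bot_iff]
    intro v hv
    have h1 := hVs v hv
    have h2 : Submodule.span ℤ (s : Set K) ≤ ⊥ := by
      rw [Submodule.span_le]
      intro x hx
      exact hcon x hx
    exact h2 h1
  obtain ⟨x₀, hx₀, hx₀0⟩ := hne
  have hC1 : ∀ i, ∀ v ∈ V, v / g i ∈ chartRing g i := by
    intro i v hv
    have h1 := hVs v hv
    clear hv
    induction h1 using Submodule.span_induction with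
    | mem x hx =>
      by_cases hx0 : x = 0
      · rw [hx0, zero_div]; exact Subalgebra.zero_mem _
      · exact Algebra.subset_adjoin ⟨⟨x, hx, hx0⟩, rfl⟩
    | zero => rw [zero_div]; exact Subalgebra.zero_mem _
    | add x y _ _ hx hy => rw [add_div]; exact Subalgebra.add_mem _ hx hy
    | smul a x _ hx =>
      rw [zsmul_eq_mul, mul_div_assoc]
      exact Subalgebra.mul_mem _ (Subalgebra.intCast_mem _ a) hx
  refine ⟨ι, hfin, g, ⟨x₀, hx₀, hx₀0⟩, hg, ?_, ?_⟩
  · intro i
    have hN : IsNoetherianRing (chartRing g i).toSubring :=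
      isNoetherianRing_of_fg (Subalgebra.fg_def.2 ⟨_, Set.finite_range _, rfl⟩)
    have h1 : IsRegularRing (chartRing g i).toSubring :=
      isRegularRing_of_local hOK (chartRing g i).toSubring V (g i) (hsV _ i.2.1) (hg i)
        (hC1 i) (by
          rw [chartRing, Algebra.adjoin_eq_ring_closure, Subring.closure_le]
          rintro _ (⟨a, rfl⟩ | ⟨j, rfl⟩)
          · rw [eq_intCast]; exact intCast_mem _ a
          · exact Subring.subset_closure ⟨g j, hsV _ j.2.1, rfl⟩) hloc
    exact h1
  · set i₀ : ι := ⟨x₀, hx₀, hx₀0⟩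
    have hclos : Subfield.closure (chartRing g i₀ : Set K) = ⊤ := by
      apply hfrac
      intro v hv u hu
      have h1 : v / u = (v / g i₀) / (u / g i₀) := by
        have := hg i₀
        field_simp
      rw [h1]
      exact Subfield.div_mem _ (Subfield.subset_closure (hC1 i₀ v hv))
        (Subfield.subset_closure (hC1 i₀ u hu))
    have hsurj : ∀ y : K, ∃ a b : chartRing g i₀, y = (a : K) / (b : K) := by
      intro y
      have hk : y ∈ Subfield.closure (chartRing g i₀ : Set K) := by
        rw [hclos]; trivial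
      rw [Subfield.mem_closure_iff] at hk
      obtain ⟨a, ha, b, hb, rfl⟩ := hk
      have hcl : Subring.closure (chartRing g i₀ : Set K) =
          (chartRing g i₀).toSubring :=
        Subring.closure_eq (chartRing g i₀).toSubring
      rw [hcl] at ha hb
      exact ⟨⟨a, ha⟩, ⟨b, hb⟩, rfl⟩
    exact IsFractionRing.of_field (chartRing g i₀) K hsurj

end Pool.Agent.H19.NF
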