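import Pool.Agent.H19.NF.Model
import Pool.Agent.H19.NF.Glue

set_option autoImplicit false

namespace Pool.Agent.H19.NF

open NumberField

section LocalRing

variable (F : Type) [Field F] [NumberField F]

/-- The local ring of the ring of integers at a prime ideal, as a subring of the field. -/
noncomputable def locRing (𝔮 : Ideal (𝓞 F)) (h𝔮 : 𝔮.IsMaximal) : Subalgebra (𝓞 F) F :=
  have := h𝔮.isPrime
  Localization.subalgebra.ofField F 𝔮.primeCompl (Ideal.primeCompl_le_nonZeroDivisors 𝔮)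

variable {F}

theorem mem_locRing (𝔮 : Ideal (𝓞 F)) (h𝔮 : 𝔮.IsMaximal) (x : F) :
    x ∈ locRing F 𝔮 h𝔮 ↔ ∃ a s : 𝓞 F, s ∉ 𝔮 ∧ x = a * (s : F)⁻¹ := by
  constructor
  · rintro ⟨a, s, hs, h⟩
    exact ⟨a, s, hs, h⟩
  · rintro ⟨a, s, hs, h⟩
    exact ⟨a, s, hs, h⟩

theorem locRing_isLocalization (𝔮 : Ideal (𝓞 F)) (h𝔮 : 𝔮.IsMaximal) :
    @IsLocalization.AtPrime (𝓞 F) _ (locRing F 𝔮 h𝔮) _ _ 𝔮 h𝔮.isPrime := by
  have := h𝔮.isPrime
  exact Localization.subalgebra.isLocalization_ofField F 𝔮.primeCompl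
    (Ideal.primeCompl_le_nonZeroDivisors 𝔮)

theorem locRing_dvr (𝔮 : Ideal (𝓞 F)) (h𝔮 : 𝔮.IsMaximal) :
    IsDiscreteValuationRing (locRing F 𝔮 h𝔮) := by
  have := h𝔮.isPrime
  have := locRing_isLocalization 𝔮 h𝔮
  exact IsLocalization.AtPrime.isDiscreteValuationRing_of_dedekind_domain (𝓞 F)
    (Ring.ne_bot_of_isMaximal_of_not_isField h𝔮 (RingOfIntegers.not_isField F)) _

theorem locRing_finite (𝔮 : Ideal (𝓞 F)) (h𝔮 : 𝔮.IsMaximal)
    [IsDiscreteValuationRing (locRing F 𝔮 h𝔮)] :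
    Finite (IsLocalRing.ResidueField (locRing F 𝔮 h𝔮)) := by
  have := h𝔮.isPrime
  have := locRing_isLocalization 𝔮 h𝔮
  have h1 : Finite (𝓞 F ⧸ 𝔮) := inferInstance
  exact Finite.of_equiv _
    (IsLocalization.AtPrime.equivQuotMaximalIdeal 𝔮 (locRing F 𝔮 h𝔮)).toEquiv

end LocalRing

variable {F : Type} [Field F] [NumberField F] {K : Type} [Field K] [Algebra F K]

/-- A regular projective model over the integers from regular charts over every local ring of the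
ring of integers of a number field, for families of elements spanning the same vector space. -/
theorem hasCharts_of_charts {I : Type} [Finite I] (h0 : I → K) (hne : ∃ i, h0 i ≠ 0)
    (d : 𝓞 F) (hd : d ≠ 0)
    (hgood : ∀ (A : Type) [CommRing A] [IsDomain A] [IsDiscreteValuationRing A]
      [Finite (IsLocalRing.ResidueField A)] [Algebra A F] [IsFractionRing A F] [Algebra A K]
      [IsScalarTower A F K],
      (∀ x : 𝓞 F, ∃ a : A, algebraMap A F a = x) →
      (∃ a : A, IsUnit a ∧ algebraMap A F a = d) → ∀ i, h0 i ≠ 0 → IsRegularRing (cAlg A h0 i))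
    (hbad : ∀ (A : Type) [CommRing A] [IsDomain A] [IsDiscreteValuationRing A]
      [Finite (IsLocalRing.ResidueField A)] [Algebra A F] [IsFractionRing A F] [Algebra A K]
      [IsScalarTower A F K],
      ∃ (J : Type) (_ : Finite J) (h : J → K),
        Submodule.span F (Set.range h) = Submodule.span F (Set.range h0) ∧
        ∀ j, h j ≠ 0 → IsRegularRing (cAlg A h j))
    (hfrac : ∀ E : Subfield K, (∀ x : F, algebraMap F K x ∈ E) → (∀ i j, h0 i / h0 j ∈ E) →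
      E = ⊤) : OG.HasCharts K := by
  classical
  let algOK : Algebra (𝓞 F) K := ((algebraMap F K).comp (algebraMap (𝓞 F) F)).toAlgebra
  have htow : IsScalarTower (𝓞 F) F K := IsScalarTower.of_algebraMap_eq fun _ => rfl
  have hOF : Function.Injective (algebraMap (𝓞 F) F) := IsFractionRing.injective (𝓞 F) F
  have hOK : Function.Injective (algebraMap (𝓞 F) K) :=
    (algebraMap F K).injective.comp hOF
  have hinst : ∀ 𝔮 (h𝔮 : 𝔮.IsMaximal), IsDiscreteValuationRing (locRing F 𝔮 h𝔮) := locRing_dvr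
  have hinst' : ∀ 𝔮 (h𝔮 : 𝔮.IsMaximal),
      Finite (IsLocalRing.ResidueField (locRing F 𝔮 h𝔮)) := fun 𝔮 h𝔮 => locRing_finite 𝔮 h𝔮
  have hb : ∀ 𝔮 : Ideal (𝓞 F), ∃ (J : Type) (_ : Finite J) (h : J → K), ∀ h𝔮 : 𝔮.IsMaximal,
      Submodule.span F (Set.range h) = Submodule.span F (Set.range h0) ∧
        ∀ j, h j ≠ 0 → IsRegularRing (cAlg (locRing F 𝔮 h𝔮) h j) := by
    intro 𝔮
    by_cases h𝔮 : 𝔮.IsMaximal
    · obtain ⟨J, hJ, h, h1, h2⟩ := hbad (locRing F 𝔮 h𝔮)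
      exact ⟨J, hJ, h, fun _ => ⟨h1, h2⟩⟩
    · exact ⟨PUnit, inferInstance, fun _ => 0, fun h => absurd h h𝔮⟩
  choose J hJ h hh using hb
  obtain ⟨V, hVfg, hVle, ⟨e, he, heV⟩, hVgood, hVbad⟩ := exists_glued (F := F) h0 d hd J hJ h
    (fun 𝔮 h𝔮 _ => (hh 𝔮 h𝔮).1)
  obtain ⟨i₀, hi₀⟩ := hne
  have hsmul : ∀ (x : 𝓞 F) (v : K), x • v = algebraMap F K (algebraMap (𝓞 F) F x) * v :=
    fun x v => Algebra.smul_def x v
  have hcoe : ∀ (x : 𝓞 F), x ≠ 0 → algebraMap F K (algebraMap (𝓞 F) F x) ≠ 0 := by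
    intro x hx
    rw [Ne, map_eq_zero_iff _ (algebraMap F K).injective, map_eq_zero_iff _ hOF]
    exact hx
  have hV0 : V ≠ ⊥ := by
    intro hV
    have h1 := heV i₀
    rw [hV, Submodule.mem_bot, hsmul] at h1
    exact (mul_ne_zero (hcoe e he) hi₀) h1
  refine hasCharts_of_local hOK V hVfg hV0 ?_ ?_
  · intro 𝔮 h𝔮
    have hA1 : ∀ a : locRing F 𝔮 h𝔮, ∃ x y : 𝓞 F, y ∉ 𝔮 ∧
        algebraMap (locRing F 𝔮 h𝔮) K a * algebraMap (𝓞 F) K y = algebraMap (𝓞 F) K x := by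
      intro a
      obtain ⟨x, y, hy, hxy⟩ := (mem_locRing 𝔮 h𝔮 a).mp a.2
      refine ⟨x, y, hy, ?_⟩
      have hy0 : (y : F) ≠ 0 := by
        intro h1
        have h2 : y = 0 := hOF (by rw [map_zero]; exact h1)
        exact hy (h2 ▸ 𝔮.zero_mem)
      show algebraMap F K (a : F) * algebraMap F K (y : F) = algebraMap F K (x : F)
      rw [← map_mul, hxy, mul_assoc, inv_mul_cancel₀ hy0, mul_one]
    have hspan : ∀ {T : Set K} (v : K) (y : 𝓞 F), y ∉ 𝔮 → y • v ∈ Submodule.span (𝓞 F) T →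
        v ∈ Submodule.span (locRing F 𝔮 h𝔮) T := by
      intro T v y hy hv
      have hy0 : (y : F) ≠ 0 := by
        intro h1
        have h2 : y = 0 := hOF (by rw [map_zero]; exact h1)
        exact hy (h2 ▸ 𝔮.zero_mem)
      have h1 : Submodule.span (𝓞 F) T ≤
          (Submodule.span (locRing F 𝔮 h𝔮) T).restrictScalars (𝓞 F) := by
        rw [Submodule.span_le]
        exact Submodule.subset_span
      have h2 : y • v ∈ Submodule.span (locRing F 𝔮 h𝔮) T := h1 hv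
      have h3 : (y : F)⁻¹ ∈ locRing F 𝔮 h𝔮 :=
        (mem_locRing 𝔮 h𝔮 _).mpr ⟨1, y, hy, by simp⟩
      have h4 : v = (⟨(y : F)⁻¹, h3⟩ : locRing F 𝔮 h𝔮) • (y • v) := by
        rw [hsmul, Algebra.smul_def]
        show v = algebraMap F K (y : F)⁻¹ * (algebraMap F K (y : F) * v)
        rw [← mul_assoc, ← map_mul, inv_mul_cancel₀ hy0, map_one, one_mul]
      rw [h4]
      exact Submodule.smul_mem _ _ h2
    by_cases hd𝔮 : d ∈ 𝔮
    · obtain ⟨c, hc, hcy, hcV⟩ := hVbad 𝔮 h𝔮 hd𝔮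
      refine ⟨locRing F 𝔮 h𝔮, inferInstance, inferInstance, J 𝔮, fun j => c • h 𝔮 j, hA1, hcy,
        ?_, ?_⟩
      · intro v hv
        obtain ⟨y, hy, hyv⟩ := hcV v hv
        exact hspan v y hy hyv
      · intro j hj
        have h1 : h 𝔮 j ≠ 0 := by
          intro h2
          apply hj
          show c • h 𝔮 j = 0
          rw [h2, smul_zero]
        have h2 : cAlg (locRing F 𝔮 h𝔮) (fun j => c • h 𝔮 j) j =
            cAlg (locRing F 𝔮 h𝔮) (h 𝔮) j := by
          unfold cAlg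
          congr 2
          ext1 i
          show (c • h 𝔮 i) / (c • h 𝔮 j) = h 𝔮 i / h 𝔮 j
          rw [hsmul, hsmul, mul_div_mul_left _ _ (hcoe c hc)]
        rw [h2]
        exact (hh 𝔮 h𝔮).2 j h1
    · refine ⟨locRing F 𝔮 h𝔮, inferInstance, inferInstance, I, h0, hA1, hVgood 𝔮 h𝔮 hd𝔮, ?_, ?_⟩
      · intro v hv
        refine hspan v 1 ((Ideal.ne_top_iff_one _).mp h𝔮.ne_top) ?_
        rw [one_smul]
        exact hVle hv
      · refine hgood (locRing F 𝔮 h𝔮) (fun x => ⟨algebraMap _ _ x, rfl⟩) ⟨algebraMap _ _ d, ?_, rfl⟩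
        have := locRing_isLocalization 𝔮 h𝔮
        have := h𝔮.isPrime
        exact IsLocalization.map_units (locRing F 𝔮 h𝔮) (⟨d, hd𝔮⟩ : 𝔮.primeCompl)
  · intro E hE
    have hO : ∀ x : 𝓞 F, algebraMap F K (x : F) ∈ E := by
      intro x
      have h1 := hE (x • e • h0 i₀) (V.smul_mem x (heV i₀)) (e • h0 i₀) (heV i₀)
      have h2 : (x • e • h0 i₀) / (e • h0 i₀) = algebraMap F K (x : F) := by
        rw [hsmul x, mul_div_assoc, div_self, mul_one]
        rw [hsmul]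
        exact mul_ne_zero (hcoe e he) hi₀
      rwa [h2] at h1
    apply hfrac
    · intro x
      obtain ⟨p, q, hq, rfl⟩ := IsFractionRing.div_surjective (A := 𝓞 F) x
      rw [map_div₀]
      exact E.div_mem (hO p) (hO q)
    · intro i j
      have h1 := hE _ (heV i) _ (heV j)
      rwa [hsmul, hsmul, mul_div_mul_left _ _ (hcoe e he)] at h1

end Pool.Agent.H19.NF
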