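import Mathlib

set_option autoImplicit false

namespace Pool.Agent.H19.NF

/-! ### Quadratic forms with coefficients in a ring `A`, evaluated in `A`-algebras -/

section Basic

variable {A : Type*} [CommRing A] {ι : Type*} [Fintype ι] {R : Type*} [CommRing R] [Algebra A R]
  {R' : Type*} [CommRing R'] [Algebra A R'] (Q : Matrix ι ι A)

/-- The quadratic form `∑ Q i j x i x j`. -/
def qf (x : ι → R) : R := ∑ i, ∑ j, algebraMap A R (Q i j) * (x i * x j)

/-- The polar form of `qf`. -/
def bf (x y : ι → R) : R := ∑ i, ∑ j, algebraMap A R (Q i j) * (x i * y j + y i * x j)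

/-- The asymmetric bilinear form `∑ Q c d x c y d`. -/
def tf (x y : ι → R) : R := ∑ c, ∑ d, algebraMap A R (Q c d) * (x c * y d)

theorem tf_add_comm (x y : ι → R) : tf Q x y + tf Q y x = bf Q x y := by
  simp only [tf, bf, ← Finset.sum_add_distrib]
  refine Finset.sum_congr rfl fun i _ => Finset.sum_congr rfl fun j _ => ?_
  ring

theorem tf_self (x : ι → R) : tf Q x x = qf Q x := rfl

theorem tf_add_left (x x' y : ι → R) : tf Q (x + x') y = tf Q x y + tf Q x' y := by
  simp only [tf, ← Finset.sum_add_distrib, Pi.add_apply]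
  refine Finset.sum_congr rfl fun i _ => Finset.sum_congr rfl fun j _ => ?_
  ring

theorem tf_add_right (x y y' : ι → R) : tf Q x (y + y') = tf Q x y + tf Q x y' := by
  simp only [tf, ← Finset.sum_add_distrib, Pi.add_apply]
  refine Finset.sum_congr rfl fun i _ => Finset.sum_congr rfl fun j _ => ?_
  ring

theorem tf_smul_smul (a b : R) (x y : ι → R) : tf Q (a • x) (b • y) = a * b * tf Q x y := by
  simp only [tf, Finset.mul_sum, Pi.smul_apply, smul_eq_mul]
  refine Finset.sum_congr rfl fun i _ => Finset.sum_congr rfl fun j _ => ?_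
  ring

theorem tf_sum_sum {κ κ' : Type*} (s : Finset κ) (s' : Finset κ') (x : κ → ι → R)
    (y : κ' → ι → R) :
    tf Q (∑ i ∈ s, x i) (∑ j ∈ s', y j) = ∑ i ∈ s, ∑ j ∈ s', tf Q (x i) (y j) := by
  classical
  have h0 : ∀ y : ι → R, tf Q 0 y = 0 := by intro y; simp [tf]
  have h0' : ∀ x : ι → R, tf Q x 0 = 0 := by intro x; simp [tf]
  induction s using Finset.induction_on with
  | empty => simp [h0]
  | insert a s ha ih =>
    rw [Finset.sum_insert ha, Finset.sum_insert ha, tf_add_left, ih]
    congr 1
    clear ih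
    induction s' using Finset.induction_on with
    | empty => simp [h0']
    | insert b s' hb ih => rw [Finset.sum_insert hb, Finset.sum_insert hb, tf_add_right, ih]

theorem qf_add (x y : ι → R) : qf Q (x + y) = qf Q x + qf Q y + bf Q x y := by
  rw [← tf_self, tf_add_left, tf_add_right, tf_add_right, tf_self, tf_self, ← tf_add_comm]
  ring

theorem qf_smul (c : R) (x : ι → R) : qf Q (c • x) = c ^ 2 * qf Q x := by
  rw [← tf_self, tf_smul_smul, tf_self]; ring

theorem bf_self (x : ι → R) : bf Q x x = 2 * qf Q x := by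
  rw [← tf_add_comm, tf_self]; ring

theorem bf_comm (x y : ι → R) : bf Q x y = bf Q y x := by
  rw [← tf_add_comm, ← tf_add_comm, add_comm]

theorem bf_add_right (x y z : ι → R) : bf Q x (y + z) = bf Q x y + bf Q x z := by
  rw [← tf_add_comm, tf_add_left, tf_add_right, ← tf_add_comm, ← tf_add_comm]; ring

theorem bf_smul_right (c : R) (x y : ι → R) : bf Q x (c • y) = c * bf Q x y := by
  simp only [bf, Finset.mul_sum, Pi.smul_apply, smul_eq_mul]
  refine Finset.sum_congr rfl fun i _ => Finset.sum_congr rfl fun j _ => ?_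
  ring

theorem bf_add_left (x y z : ι → R) : bf Q (x + y) z = bf Q x z + bf Q y z := by
  rw [bf_comm, bf_add_right, bf_comm, bf_comm Q y z]

theorem bf_smul_left (c : R) (x y : ι → R) : bf Q (c • x) y = c * bf Q x y := by
  rw [bf_comm, bf_smul_right, bf_comm]

@[simp] theorem qf_zero : qf Q (0 : ι → R) = 0 := by simp [qf]

@[simp] theorem bf_zero_right (x : ι → R) : bf Q x 0 = 0 := by simp [bf]

@[simp] theorem bf_zero_left (x : ι → R) : bf Q 0 x = 0 := by simp [bf]

theorem bf_sum_right {κ : Type*} (s : Finset κ) (x : ι → R) (y : κ → ι → R) :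
    bf Q x (∑ k ∈ s, y k) = ∑ k ∈ s, bf Q x (y k) := by
  classical
  induction s using Finset.induction_on with
  | empty => simp
  | insert a s ha ih => rw [Finset.sum_insert ha, Finset.sum_insert ha, bf_add_right, ih]

theorem map_qf (φ : R →+* R') (hφ : ∀ a, φ (algebraMap A R a) = algebraMap A R' a) (x : ι → R) :
    φ (qf Q x) = qf Q (fun i => φ (x i)) := by
  simp [qf, map_sum, hφ]

theorem map_bf (φ : R →+* R') (hφ : ∀ a, φ (algebraMap A R a) = algebraMap A R' a)
    (x y : ι → R) : φ (bf Q x y) = bf Q (fun i => φ (x i)) (fun i => φ (y i)) := by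
  simp [bf, map_sum, hφ]

theorem algebraMap_qf (x : ι → A) :
    algebraMap A R (qf Q x) = qf Q (fun i => algebraMap A R (x i)) :=
  map_qf Q (algebraMap A R) (fun _ => rfl) x

theorem algebraMap_bf (x y : ι → A) :
    algebraMap A R (bf Q x y) = bf Q (fun i => algebraMap A R (x i))
      (fun i => algebraMap A R (y i)) :=
  map_bf Q (algebraMap A R) (fun _ => rfl) x y

theorem bf_eq_sum_single [DecidableEq ι] (x y : ι → R) :
    bf Q x y = ∑ k, y k * bf Q x (Pi.single k 1) := by
  have h : y = ∑ k, y k • (Pi.single k 1 : ι → R) := by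
    ext i
    simp [Finset.sum_apply, Pi.single_apply]
  conv_lhs => rw [h]
  rw [bf_sum_right]
  refine Finset.sum_congr rfl fun k _ => ?_
  rw [bf_smul_right]

theorem bf_single_right [DecidableEq ι] (x : ι → R) (k : ι) :
    bf Q x (Pi.single k 1) = ∑ i, algebraMap A R ((Q + Q.transpose) k i) * x i := by
  have h : ∀ i j, algebraMap A R (Q i j) *
      (x i * (Pi.single k 1 : ι → R) j + (Pi.single k 1 : ι → R) i * x j)
      = (if j = k then algebraMap A R (Q i k) * x i else 0) +
        (if i = k then algebraMap A R (Q k j) * x j else 0) := by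
    intro i j
    by_cases h1 : j = k <;> by_cases h2 : i = k
    · subst h1; subst h2; simp; ring
    · subst h1; simp [h2]
    · subst h2; simp [h1]
    · simp [h1, h2]
  simp only [bf, h, Finset.sum_add_distrib]
  have h3 : ∑ x_1, ∑ x_2, (if x_1 = k then algebraMap A R (Q k x_2) * x x_2 else 0)
      = ∑ j, algebraMap A R (Q k j) * x j := by
    rw [Finset.sum_comm]
    simp
  rw [h3]
  simp only [Finset.sum_ite_eq', Finset.mem_univ, if_true]
  rw [← Finset.sum_add_distrib]
  refine Finset.sum_congr rfl fun i _ => ?_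
  simp [Matrix.add_apply, Matrix.transpose_apply]
  ring

/-- If the polar form of `x` vanishes identically then `det (Q + Qᵀ) • x = 0`. -/
theorem det_mul_eq_zero [DecidableEq ι] (x : ι → R) (h : ∀ k, bf Q x (Pi.single k 1) = 0) (i : ι) :
    algebraMap A R (Q + Q.transpose).det * x i = 0 := by
  have h1 : ((Q + Q.transpose).map (algebraMap A R)).mulVec x = 0 := by
    ext k
    rw [Matrix.mulVec, dotProduct]
    simp only [Matrix.map_apply, Pi.zero_apply]
    rw [← bf_single_right, h]
  have h2 := congrArg (((Q + Q.transpose).map (algebraMap A R)).adjugate.mulVec) h1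
  rw [Matrix.mulVec_mulVec, Matrix.adjugate_mul, Matrix.mulVec_zero, Matrix.smul_mulVec,
    Matrix.one_mulVec] at h2
  have h3 := congrFun h2 i
  have h4 : ((Q + Q.transpose).map (algebraMap A R)).det = algebraMap A R (Q + Q.transpose).det := by
    have := (algebraMap A R).map_det (Q + Q.transpose)
    simpa [RingHom.mapMatrix_apply] using this.symm
  rw [h4] at h3
  simpa using h3

theorem qf_sum_of_rad [DecidableEq ι] {α : Type*} (s : Finset α) (c : α → R)
    (w : α → ι → R) (hw : ∀ a ∈ s, ∀ k, bf Q (w a) (Pi.single k 1) = 0) :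
    qf Q (∑ a ∈ s, c a • w a) = ∑ a ∈ s, c a ^ 2 * qf Q (w a) := by
  classical
  induction s using Finset.induction_on with
  | empty => simp
  | insert a s ha ih =>
    rw [Finset.sum_insert ha, Finset.sum_insert ha, qf_add, qf_smul,
      ih (fun b hb => hw b (Finset.mem_insert_of_mem hb))]
    have : bf Q (c a • w a) (∑ a ∈ s, c a • w a) = 0 := by
      rw [bf_smul_left, bf_eq_sum_single]
      simp [hw a (Finset.mem_insert_self a s)]
    rw [this, add_zero]

theorem bf_eq_zero_of_rad [DecidableEq ι] {w : ι → R}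
    (hw : ∀ k, bf Q w (Pi.single k 1) = 0) (y : ι → R) : bf Q w y = 0 := by
  rw [bf_eq_sum_single]
  simp [hw]

end Basic

/-! ### Quadratic relations between the rows of a matrix -/

section Rel

variable {A : Type*} [CommRing A] {ι : Type*} [Fintype ι] {R : Type*} [CommRing R] [Algebra A R]
  {R' : Type*} [CommRing R'] [Algebra A R'] {k : ℕ} (Q : Matrix ι ι A)

/-- The quadratic relations between the rows `w i`: the value of the form at `w i` on the diagonal,
the value of the polar form at `w i`, `w j` off the diagonal. -/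
def qrel (w : Fin k → ι → R) (i j : Fin k) : R := if i = j then qf Q (w i) else bf Q (w i) (w j)

theorem qrel_self (w : Fin k → ι → R) (i : Fin k) : qrel Q w i i = qf Q (w i) := by simp [qrel]

theorem qrel_ne (w : Fin k → ι → R) {i j : Fin k} (h : i ≠ j) :
    qrel Q w i j = bf Q (w i) (w j) := by simp [qrel, h]

theorem map_qrel (φ : R →+* R') (hφ : ∀ a, φ (algebraMap A R a) = algebraMap A R' a)
    (w : Fin k → ι → R) (i j : Fin k) :
    φ (qrel Q w i j) = qrel Q (fun i c => φ (w i c)) i j := by
  unfold qrel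
  split_ifs with h
  · rw [map_qf Q φ hφ]
  · rw [map_bf Q φ hφ]

theorem qf_sum (w : Fin k → ι → R) (n : Fin k → R) :
    qf Q (∑ j, n j • w j) = ∑ i, ∑ j, (if i ≤ j then n i * n j else 0) * qrel Q w i j := by
  rw [← tf_self, tf_sum_sum]
  have h1 : ∀ i j, tf Q (n i • w i) (n j • w j) =
      (if i < j then n i * n j * tf Q (w i) (w j) else 0) +
      (if j < i then n i * n j * tf Q (w i) (w j) else 0) +
      (if i = j then n i * n j * tf Q (w i) (w j) else 0) := by
    intro i j
    rw [tf_smul_smul]
    rcases lt_trichotomy i j with h | h | h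
    · simp [h, h.not_gt, h.ne]
    · subst h; simp
    · simp [h, h.not_gt, h.ne']
  simp only [h1, Finset.sum_add_distrib]
  rw [Finset.sum_comm (f := fun i j => if j < i then n i * n j * tf Q (w i) (w j) else 0)]
  simp only [← Finset.sum_add_distrib]
  refine Finset.sum_congr rfl fun i _ => Finset.sum_congr rfl fun j _ => ?_
  rcases lt_trichotomy i j with h | h | h
  · simp only [h, if_true, h.ne, if_false, h.le, qrel, ← tf_add_comm]
    ring
  · subst h; simp [qrel, tf_self]
  · simp [h.not_gt, h.not_ge, h.ne']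

theorem qf_sum_eq_zero (w : Fin k → ι → R) (n : Fin k → R) (h : ∀ i j, qrel Q w i j = 0) :
    qf Q (∑ j, n j • w j) = 0 := by
  rw [qf_sum]
  simp [h]

theorem bf_eq_zero_of_qrel (w : Fin k → ι → R) (h : ∀ i j, i ≤ j → qrel Q w i j = 0)
    (i j : Fin k) : bf Q (w i) (w j) = 0 := by
  rcases lt_trichotomy i j with hij | hij | hij
  · rw [← qrel_ne Q w hij.ne, h i j hij.le]
  · subst hij
    rw [bf_self, ← qrel_self Q w, h i i le_rfl, mul_zero]
  · rw [bf_comm, ← qrel_ne Q w hij.ne, h j i hij.le]

theorem qrel_eq_zero (w : Fin k → ι → R) (h : ∀ i j, i ≤ j → qrel Q w i j = 0)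
    (i j : Fin k) : qrel Q w i j = 0 := by
  by_cases hij : i = j
  · subst hij; exact h i i le_rfl
  · rw [qrel_ne Q w hij]; exact bf_eq_zero_of_qrel Q w h i j

end Rel

/-! ### The radical modulo the maximal ideal of a local ring -/

section Local

variable {A : Type*} [CommRing A] [IsLocalRing A] {ι : Type*} [Fintype ι] [DecidableEq ι]

open IsLocalRing

/-- The radical of the reduction of the quadratic form `qf Q`: the vectors at which the
form and its polar form both vanish. -/
def radSet (Q : Matrix ι ι A) : Set (ι → ResidueField A) :=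
  {w | (∀ k, bf Q w (Pi.single k 1) = 0) ∧ qf Q w = 0}

/-- The form is `prim` if it takes no value in the square of the maximal ideal at lifts of nonzero
vectors of the radical. -/
def Prim (Q : Matrix ι ι A) : Prop :=
  ∀ v : ι → A, (fun i => residue A (v i)) ≠ 0 → (fun i => residue A (v i)) ∈ radSet Q →
    qf Q v ∉ maximalIdeal A ^ 2

/-- The quadratic form `qf Q` is good if the radical of its reduction is at most a line, and it is
`Prim`. -/
structure Good (Q : Matrix ι ι A) : Prop where
  line : ∀ w ∈ radSet Q, w ≠ 0 → ∀ w' ∈ radSet Q, ∃ c : ResidueField A, w' = c • w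
  prim : Prim Q

variable (Q : Matrix ι ι A)

theorem exists_sq_root {κ : Type*} [Field κ] [Finite κ] (h2 : (2 : κ) = 0) (z : κ) :
    ∃ y, z = y ^ 2 := by
  have : CharP κ 2 := CharTwo.of_one_ne_zero_of_two_eq_zero one_ne_zero h2
  have h1 : Function.Injective (frobenius κ 2) := frobenius_inj κ 2
  obtain ⟨y, hy⟩ := (Finite.injective_iff_surjective.mp h1) z
  exact ⟨y, by rw [← hy, frobenius_def]⟩

theorem rad_decomp.{u} {D : Type u} [CommRing D] [IsDomain D] [Finite (ResidueField A)]
    [Algebra A D] [Algebra (ResidueField A) D] [IsScalarTower A (ResidueField A) D]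
    (ξ : ι → D) (h1 : ∀ k, bf Q ξ (Pi.single k 1) = 0) (h2 : qf Q ξ = 0) :
    ∃ (α : Type u) (s : Finset α) (c : α → D) (w : α → ι → ResidueField A),
      (∀ a, w a ∈ radSet Q) ∧
        ξ = ∑ a ∈ s, c a • (fun j => algebraMap (ResidueField A) D (w a j)) := by
  classical
  let b := Module.Basis.ofVectorSpace (ResidueField A) D
  let s : Finset _ := Finset.univ.biUnion fun j => (b.repr (ξ j)).support
  let w : _ → ι → ResidueField A := fun a j => b.repr (ξ j) a
  have hAD : ∀ a : A, algebraMap (ResidueField A) D (algebraMap A (ResidueField A) a) =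
      algebraMap A D a := fun a => (IsScalarTower.algebraMap_apply A (ResidueField A) D a).symm
  have hξ : ξ = ∑ a ∈ s, b a • (fun j => algebraMap (ResidueField A) D (w a j)) := by
    ext j
    rw [Finset.sum_apply]
    have h3 : ξ j = ∑ a ∈ (b.repr (ξ j)).support, b.repr (ξ j) a • b a := by
      conv_lhs => rw [← b.linearCombination_repr (ξ j)]
      rfl
    conv_lhs => rw [h3]
    rw [Finset.sum_subset (s₂ := s)]
    · refine Finset.sum_congr rfl fun a _ => ?_
      rw [Algebra.smul_def, Pi.smul_apply, smul_eq_mul, mul_comm]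
    · intro a ha
      exact Finset.mem_biUnion.mpr ⟨j, Finset.mem_univ _, ha⟩
    · intro a _ ha
      rw [Finsupp.notMem_support_iff.mp ha, zero_smul]
  have hbf : ∀ a k, bf Q (w a) (Pi.single k 1) = 0 := by
    intro a k
    have h3 := h1 k
    rw [bf_single_right] at h3 ⊢
    have h4 := congrArg (fun z => b.repr z a) h3
    simp only [map_sum, map_zero, Finsupp.coe_finsetSum, Finset.sum_apply, Finsupp.coe_zero,
      Pi.zero_apply] at h4
    rw [← h4]
    refine Finset.sum_congr rfl fun i _ => ?_
    have h5 : algebraMap A D ((Q + Q.transpose) k i) * ξ i =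
        algebraMap A (ResidueField A) ((Q + Q.transpose) k i) • ξ i := by
      rw [Algebra.smul_def, hAD]
    rw [h5, map_smul, Finsupp.smul_apply, smul_eq_mul]
  refine ⟨_, s, fun a => b a, w, ?_, hξ⟩
  -- the quadratic form vanishes on all `w a`
  have hqsum : ∑ a ∈ s, (b a) ^ 2 * algebraMap (ResidueField A) D (qf Q (w a)) = 0 := by
    have h6 := qf_sum_of_rad Q s (fun a => b a)
      (fun a j => algebraMap (ResidueField A) D (w a j))
      (by
        intro a _ k
        have h7 := congrArg (algebraMap (ResidueField A) D) (hbf a k)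
        rw [map_bf Q _ hAD, map_zero] at h7
        convert h7 using 2
        ext i
        by_cases hik : i = k
        · subst hik; simp
        · simp [hik])
    rw [← hξ, h2] at h6
    rw [h6]
    refine Finset.sum_congr rfl fun a _ => ?_
    rw [map_qf Q _ hAD]
  intro a
  refine ⟨hbf a, ?_⟩
  by_cases h20 : (2 : ResidueField A) = 0
  · have hc2 : CharP (ResidueField A) 2 := CharTwo.of_one_ne_zero_of_two_eq_zero one_ne_zero h20
    have hcD : CharP D 2 := charP_of_injective_algebraMap (algebraMap (ResidueField A) D).injective 2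
    by_cases ha : a ∈ s
    · choose t ht using fun a => exists_sq_root h20 (qf Q (w a))
      have h8 : (∑ a ∈ s, t a • b a) ^ 2 = 0 := by
        rw [sum_pow_char]
        rw [← hqsum]
        refine Finset.sum_congr rfl fun a _ => ?_
        rw [Algebra.smul_def, mul_pow, ← map_pow, ← ht, mul_comm]
      have h9 : ∑ a ∈ s, t a • b a = 0 := by
        exact pow_eq_zero_iff (two_ne_zero) |>.mp h8
      have h10 := (linearIndependent_iff'.mp b.linearIndependent) s t h9 a ha
      rw [ht a, h10]; simp
    · have h10 : w a = 0 := by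
        ext j
        by_contra hne
        exact ha (Finset.mem_biUnion.mpr ⟨j, Finset.mem_univ _, Finsupp.mem_support_iff.mpr hne⟩)
      rw [h10, qf_zero]
  · have h11 : bf Q (w a) (w a) = 0 := by
      rw [bf_eq_sum_single]
      simp [hbf a]
    rw [bf_self] at h11
    exact (mul_eq_zero.mp h11).resolve_left h20

theorem rad_line.{u} {D : Type u} [CommRing D] [IsDomain D] [Finite (ResidueField A)]
    [Algebra A D] [Algebra (ResidueField A) D] [IsScalarTower A (ResidueField A) D]
    (hQ : Good Q) :
    (∀ ξ : ι → D, (∀ k, bf Q ξ (Pi.single k 1) = 0) → qf Q ξ = 0 → ξ = 0) ∨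
    ∃ v ∈ radSet Q, v ≠ 0 ∧ ∀ ξ : ι → D, (∀ k, bf Q ξ (Pi.single k 1) = 0) → qf Q ξ = 0 →
      ∃ c : D, ∀ j, ξ j = c * algebraMap (ResidueField A) D (v j) := by
  by_cases h : ∃ v ∈ radSet Q, v ≠ 0
  · obtain ⟨v, hv, hv0⟩ := h
    right
    refine ⟨v, hv, hv0, fun ξ h1 h2 => ?_⟩
    obtain ⟨α, s, c, w, hw, hξ⟩ := rad_decomp Q ξ h1 h2
    choose t ht using fun a => hQ.line v hv hv0 (w a) (hw a)
    refine ⟨∑ a ∈ s, c a * algebraMap (ResidueField A) D (t a), fun j => ?_⟩
    conv_lhs => rw [hξ]
    rw [Finset.sum_apply, Finset.sum_mul]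
    refine Finset.sum_congr rfl fun a _ => ?_
    rw [ht a, Pi.smul_apply, Pi.smul_apply, smul_eq_mul, smul_eq_mul, map_mul]
    ring
  · push Not at h
    left
    intro ξ h1 h2
    obtain ⟨α, s, c, w, hw, hξ⟩ := rad_decomp Q ξ h1 h2
    rw [hξ]
    refine Finset.sum_eq_zero fun a _ => ?_
    rw [h (w a) (hw a)]
    ext j
    simp

end Local

end Pool.Agent.H19.NF
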