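import Pool.Agent.H19.NF.QF

set_option autoImplicit false

namespace Pool.Agent.H19.NF

open MvPolynomial IsLocalRing

variable {A : Type*} [CommRing A] [IsLocalRing A] [hfinA : Finite (ResidueField A)]
  {ι : Type*} [Fintype ι] [DecidableEq ι] (Q : Matrix ι ι A)

omit [DecidableEq ι] in
/-- A quadratic form in three variables over `𝔽_p` has a nontrivial zero (Chevalley–Warning). -/
theorem exists_nontrivial_zero (z : Fin 3 → ι → ResidueField A) :
    ∃ t : Fin 3 → ResidueField A, t ≠ 0 ∧ qf Q (∑ a, t a • z a) = 0 := by
  classical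
  let v : ι → MvPolynomial (Fin 3) (ResidueField A) := fun j => ∑ a, C (z a j) * X a
  let f : MvPolynomial (Fin 3) (ResidueField A) := qf Q v
  have hv : ∀ j, (v j).totalDegree ≤ 1 := by
    intro j
    refine totalDegree_finsetSum_le fun a _ => ?_
    refine (totalDegree_mul _ _).trans ?_
    rw [totalDegree_C, totalDegree_X]
  have hf : f.totalDegree ≤ 2 := by
    refine totalDegree_finsetSum_le fun i _ => totalDegree_finsetSum_le fun j _ => ?_
    refine (totalDegree_mul _ _).trans ?_
    have h1 : (algebraMap A _ (Q i j) : MvPolynomial (Fin 3) (ResidueField A)).totalDegree = 0 := by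
      have : (algebraMap A _ (Q i j) : MvPolynomial (Fin 3) (ResidueField A)) = C (algebraMap A _ (Q i j) : ResidueField A) := by
        simp
      rw [this, totalDegree_C]
    have h2 : (v i * v j).totalDegree ≤ 2 := by
      refine (totalDegree_mul _ _).trans ?_
      have := hv i
      have := hv j
      omega
    omega
  have hev : ∀ t : Fin 3 → ResidueField A, eval t f = qf Q (∑ a, t a • z a) := by
    intro t
    rw [map_qf Q (eval t) (fun a => by
      rw [IsScalarTower.algebraMap_apply A (ResidueField A) (MvPolynomial (Fin 3) (ResidueField A)),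
        MvPolynomial.algebraMap_eq, eval_C])]
    congr 1
    ext j
    simp only [v, map_sum, map_mul, eval_C, eval_X, Finset.sum_apply, Pi.smul_apply, smul_eq_mul]
    exact Finset.sum_congr rfl fun a _ => mul_comm _ _
  have : Fintype (ResidueField A) := Fintype.ofFinite _
  obtain ⟨p, hchar⟩ := CharP.exists (ResidueField A)
  have hp : Fact p.Prime := ⟨CharP.char_is_prime (ResidueField A) p⟩
  have hcw := char_dvd_card_solutions p (f := f) (lt_of_le_of_lt hf (by simp))
  by_contra hcon
  push Not at hcon
  have huniq : Fintype.card {x : Fin 3 → ResidueField A // eval x f = 0} = 1 := by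
    rw [Fintype.card_eq_one_iff]
    refine ⟨⟨0, by rw [hev]; simp⟩, ?_⟩
    rintro ⟨y, hy⟩
    apply Subtype.ext
    by_contra hy0
    apply hcon y hy0
    rw [← hev, hy]
  rw [huniq] at hcw
  have := (Fact.out : p.Prime).one_lt
  have := Nat.le_of_dvd one_pos hcw
  omega

/-- The polar form of `qf Q` over `𝔽_p`, as a bilinear form. -/
noncomputable def polarB : LinearMap.BilinForm (ResidueField A) (ι → ResidueField A) :=
  LinearMap.mk₂ (ResidueField A) (fun x y => bf Q x y) (fun x y z => bf_add_left Q x y z)
    (fun c x y => by rw [bf_smul_left]; rfl) (fun x y z => bf_add_right Q x y z)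
    (fun c x y => by rw [bf_smul_right]; rfl)

omit [DecidableEq ι] in
theorem polarB_apply (x y : ι → ResidueField A) : polarB Q x y = bf Q x y := rfl

omit [DecidableEq ι] in
theorem polarB_isRefl : (polarB Q).IsRefl := by
  intro x y h
  rw [polarB_apply] at h ⊢
  rw [bf_comm, h]

/-- If the number of variables is odd and the radical of `qf Q` modulo `p` has dimension at least
two, then there is a totally singular subspace of dimension larger than half the number of
variables. -/
theorem exists_large_singular (hodd : Odd (Fintype.card ι)) (w w' : ι → ResidueField A)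
    (hw : w ∈ radSet Q) (hw0 : w ≠ 0) (hw' : w' ∈ radSet Q) (hne : ∀ c : ResidueField A, w' ≠ c • w) :
    ∃ U : Submodule (ResidueField A) (ι → ResidueField A), (∀ u ∈ U, qf Q u = 0) ∧
      Fintype.card ι < 2 * Module.finrank (ResidueField A) U := by
  classical
  let T : Set (Submodule (ResidueField A) (ι → ResidueField A)) := {U | ∀ u ∈ U, qf Q u = 0}
  have hfin : Finite (Submodule (ResidueField A) (ι → ResidueField A)) := inferInstance
  obtain ⟨U, hU, hmax⟩ := Set.exists_max_image T (fun U => Module.finrank (ResidueField A) U)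
    (Set.toFinite T) ⟨⊥, fun u hu => by rw [(Submodule.mem_bot _).mp hu, qf_zero]⟩
  refine ⟨U, hU, ?_⟩
  have hbU : ∀ u ∈ U, ∀ u' ∈ U, bf Q u u' = 0 := by
    intro u hu u' hu'
    have h := hU (u + u') (U.add_mem hu hu')
    rw [qf_add, hU u hu, hU u' hu'] at h
    simpa using h
  have habs : ∀ z, (∀ u ∈ U, bf Q u z = 0) → qf Q z = 0 → z ∈ U := by
    intro z hz hqz
    have h1 : U ⊔ Submodule.span (ResidueField A) {z} ∈ T := by
      intro x hx
      obtain ⟨u, hu, y, hy, rfl⟩ := Submodule.mem_sup.mp hx
      obtain ⟨c, rfl⟩ := Submodule.mem_span_singleton.mp hy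
      rw [qf_add, hU u hu, qf_smul, hqz, bf_smul_right, hz u hu]
      ring
    have h2 := hmax _ h1
    have h3 : U = U ⊔ Submodule.span (ResidueField A) {z} :=
      Submodule.eq_of_le_of_finrank_le le_sup_left h2
    rw [h3]
    exact (le_sup_right : _ ≤ U ⊔ Submodule.span (ResidueField A) {z}) (Submodule.mem_span_singleton_self z)
  have hwU : w ∈ U := habs w (fun u _ => by rw [bf_comm, bf_eq_zero_of_rad Q hw.1]) hw.2
  have hwU' : w' ∈ U := habs w' (fun u _ => by rw [bf_comm, bf_eq_zero_of_rad Q hw'.1]) hw'.2
  set Up := (polarB Q).orthogonal U with hUp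
  have hmemUp : ∀ z, z ∈ Up ↔ ∀ u ∈ U, bf Q u z = 0 := fun z =>
    LinearMap.BilinForm.mem_orthogonal_iff
  have hUUp : U ≤ Up := fun u hu => (hmemUp u).mpr fun u' hu' => hbU u' hu' u hu
  have hle : Module.finrank (ResidueField A) Up ≤ Module.finrank (ResidueField A) U + 2 := by
    by_contra hcon
    push Not at hcon
    let W := Up.map U.mkQ
    have hWdim : Module.finrank (ResidueField A) W + Module.finrank (ResidueField A) U =
        Module.finrank (ResidueField A) Up := by
      have h1 := LinearMap.finrank_range_add_finrank_ker (U.mkQ.comp Up.subtype)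
      have h2 : LinearMap.range (U.mkQ.comp Up.subtype) = W := by
        rw [LinearMap.range_comp, Submodule.range_subtype]
      have h3 : LinearMap.ker (U.mkQ.comp Up.subtype) = U.comap Up.subtype := by
        rw [LinearMap.ker_comp, Submodule.ker_mkQ]
      rw [h2, h3, (Submodule.comapSubtypeEquivOfLe hUUp).finrank_eq] at h1
      exact h1
    have h3 : 3 ≤ Module.finrank (ResidueField A) W := by omega
    let b := Module.finBasis (ResidueField A) W
    let f : Fin 3 → W := b ∘ Fin.castLE h3
    have hf : LinearIndependent (ResidueField A) f :=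
      b.linearIndependent.comp _ (Fin.castLE_injective h3)
    have hz : ∀ a, ∃ z ∈ Up, U.mkQ z = (f a : (ι → ResidueField A) ⧸ U) := fun a => (f a).2
    choose z hz1 hz2 using hz
    obtain ⟨t, ht0, ht⟩ := exists_nontrivial_zero Q z
    have hmem : ∑ a, t a • z a ∈ U := by
      apply habs _ _ ht
      rw [← hmemUp]
      exact Submodule.sum_mem _ fun a _ => Submodule.smul_mem _ _ (hz1 a)
    have h4 : ∑ a, t a • f a = 0 := by
      apply Subtype.ext
      have h5 : U.mkQ (∑ a, t a • z a) = 0 := by
        rw [Submodule.mkQ_apply]; exact (Submodule.Quotient.mk_eq_zero _).mpr hmem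
      rw [map_sum] at h5
      simp only [map_smul, hz2] at h5
      simpa using h5
    exact ht0 (funext (Fintype.linearIndependent_iff.mp hf t h4))
  have hform := LinearMap.BilinForm.finrank_add_finrank_orthogonal (polarB_isRefl Q) U
  have hrad : 2 ≤ Module.finrank (ResidueField A) (U ⊓ (polarB Q).orthogonal ⊤ : Submodule _ _) := by
    have hli : LinearIndependent (ResidueField A) ![w, w'] := by
      rw [LinearIndependent.pair_iff' hw0]
      intro c hc
      exact hne c hc.symm
    have h1 := finrank_span_eq_card hli
    have h2 : Submodule.span (ResidueField A) (Set.range ![w, w']) ≤ U ⊓ (polarB Q).orthogonal ⊤ := by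
      rw [Submodule.span_le]
      rintro _ ⟨k, rfl⟩
      refine ⟨?_, ?_⟩
      · fin_cases k
        · exact hwU
        · exact hwU'
      · rw [SetLike.mem_coe, LinearMap.BilinForm.mem_orthogonal_iff]
        intro y _
        show bf Q y _ = 0
        fin_cases k
        · show bf Q y w = 0
          rw [bf_comm, bf_eq_zero_of_rad Q hw.1]
        · show bf Q y w' = 0
          rw [bf_comm, bf_eq_zero_of_rad Q hw'.1]
    have h3 := Submodule.finrank_mono h2
    rw [h1] at h3
    simpa using h3
  rw [Module.finrank_fintype_fun_eq_card, ← hUp] at hform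
  obtain ⟨m, hm⟩ := hodd
  omega

end Pool.Agent.H19.NF
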